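import Pool.Agent.TH428.RM.NC

set_option autoImplicit false

/-!
# A certificate, checked by the kernel
-/

namespace Pool.Agent.TH428.RM

/-- data of the certificate -/
def nc1 : NC :=
  ⟨1000000000000000, 1024, 1000, 2048, 848865741624186, 503380453289618, 503380453289618, 5, 1000, 1000, 1000, 315, 315,
  [(571974009454032, 1, 1), (103725784246508, 2, 1), (103725784246713, 1, 2), (3339410208420, 3, 1), (3339410208432, 1, 3), (282142575, 5, 0), (22689540356, 4, 1), (111321098475, 3, 2), (111321098475, 2, 3), (22689540356, 1, 4), (282142575, 0, 5)]⟩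

set_option maxRecDepth 100000 in
theorem nc1_q00 : qchk (mkq nc1 false false) 22 (nc1.R * nc1.D) (nc1.R * nc1.D) (nc1.R * nc1.D) = true := by
  decide +kernel

set_option maxRecDepth 100000 in
theorem nc1_q01 : qchk (mkq nc1 false true) 22 (nc1.R * nc1.D) (nc1.R * nc1.D) (nc1.R * nc1.D) = true := by
  decide +kernel

set_option maxRecDepth 100000 in
theorem nc1_q10 : qchk (mkq nc1 true false) 22 (nc1.R * nc1.D) (nc1.R * nc1.D) (nc1.R * nc1.D) = true := by
  decide +kernel

set_option maxRecDepth 100000 in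
theorem nc1_q11 : qchk (mkq nc1 true true) 22 (nc1.R * nc1.D) (nc1.R * nc1.D) (nc1.R * nc1.D) = true := by
  decide +kernel

theorem nc1_ok : nc1.ok = true := by decide +kernel

theorem nc1_cert : Cert2 ((nc1.T1 : ℝ) / nc1.M) ((nc1.T2 : ℝ) / nc1.M) ((nc1.wR : ℝ) / nc1.wd)
    ((nc1.wB : ℝ) / nc1.wd) ((nc1.g0 : ℝ) / nc1.K) ((nc1.a1 : ℝ) / nc1.K) ((nc1.a2 : ℝ) / nc1.K) nc1.rP
    ((nc1.dl : ℝ) / nc1.K) :=
  cert_of nc1_ok nc1_q00 nc1_q01 nc1_q10 nc1_q11

end Pool.Agent.TH428.RM
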