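import Pool.Agent.TH428.RM.Defs
import Pool.Agent.W389.R2.Combine

set_option autoImplicit false

/-! # Combination step for asymmetric certificates -/

namespace Pool.Agent.TH428.RM

open Finset W478R Filter Topology Pool.Agent.W389.R2

lemma cs_nonneg {P : List (ℝ × ℕ × ℕ)} (hP : POK P) : 0 ≤ cs P := by
  unfold cs
  apply List.sum_nonneg
  intro x hx
  obtain ⟨m, hm, rfl⟩ := List.mem_map.mp hx
  exact (hP m hm).1

lemma ev_cons (m : ℝ × ℕ × ℕ) (P : List (ℝ × ℕ × ℕ)) (x y : ℝ) :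
    ev (m :: P) x y = m.1 * (x ^ m.2.1 * y ^ m.2.2) + ev P x y := by
  simp [ev]

lemma cs_cons (m : ℝ × ℕ × ℕ) (P : List (ℝ × ℕ × ℕ)) : cs (m :: P) = m.1 + cs P := by
  simp [cs]

lemma POK.tail {m : ℝ × ℕ × ℕ} {P : List (ℝ × ℕ × ℕ)} (h : POK (m :: P)) : POK P :=
  fun k hk => h k (List.mem_cons_of_mem _ hk)

lemma mon_bound (x y : ℝ) (i j : ℕ) (h : i + j ≤ 7) :
    |x ^ i * y ^ j| ≤ 1 + |x| ^ 7 + |y| ^ 7 := by
  rw [abs_mul, abs_pow, abs_pow]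
  have hx := abs_nonneg x
  have hy := abs_nonneg y
  generalize |x| = X at *
  generalize |y| = Y at *
  set M := max X Y with hM
  have h1 : X ≤ M := le_max_left _ _
  have h2 : Y ≤ M := le_max_right _ _
  have hM0 : 0 ≤ M := hx.trans h1
  have h3 : X ^ i * Y ^ j ≤ M ^ (i + j) := by
    rw [pow_add]
    exact mul_le_mul (pow_le_pow_left₀ hx h1 i) (pow_le_pow_left₀ hy h2 j) (by positivity)
      (by positivity)
  have hX7 : 0 ≤ X ^ 7 := by positivity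
  have hY7 : 0 ≤ Y ^ 7 := by positivity
  rcases le_total M 1 with h4 | h4
  · have : M ^ (i + j) ≤ 1 := pow_le_one₀ hM0 h4
    linarith
  · have h5 : M ^ (i + j) ≤ M ^ 7 := pow_le_pow_right₀ h4 h
    rcases le_total X Y with h6 | h6
    · have : M = Y := max_eq_right h6
      rw [this] at h5 h3
      linarith
    · have : M = X := max_eq_left h6
      rw [this] at h5 h3
      linarith

lemma ev_bound {P : List (ℝ × ℕ × ℕ)} (hP : POK P) (x y : ℝ) :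
    |ev P x y| ≤ cs P * (1 + |x| ^ 7 + |y| ^ 7) := by
  induction P with
  | nil => simp [ev, cs]
  | cons m P ih =>
    rw [ev_cons, cs_cons, add_mul]
    refine (abs_add_le _ _).trans (add_le_add ?_ (ih hP.tail))
    obtain ⟨h1, h2⟩ := hP m List.mem_cons_self
    rw [abs_mul, abs_of_nonneg h1]
    exact mul_le_mul_of_nonneg_left (mon_bound x y _ _ h2) h1

lemma pow_diff (x x' R δ : ℝ) (hR : 1 ≤ R) (hx : |x| ≤ R) (hx' : |x'| ≤ R) (h : |x - x'| ≤ δ)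
    (n : ℕ) : |x ^ n - x' ^ n| ≤ n * (R ^ n * δ) := by
  have hδ : 0 ≤ δ := (abs_nonneg _).trans h
  induction n with
  | zero => simp
  | succ n ih =>
    have e : x ^ (n + 1) - x' ^ (n + 1) = x * (x ^ n - x' ^ n) + x' ^ n * (x - x') := by ring
    rw [e]
    refine (abs_add_le _ _).trans ?_
    rw [abs_mul, abs_mul, abs_pow]
    have h1 : |x| * |x ^ n - x' ^ n| ≤ R * (n * (R ^ n * δ)) :=
      mul_le_mul hx ih (abs_nonneg _) (by linarith)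
    have h2 : |x'| ^ n * |x - x'| ≤ R ^ n * δ :=
      mul_le_mul (pow_le_pow_left₀ (abs_nonneg _) hx' n) h (abs_nonneg _) (by positivity)
    have h3 : R ^ n * δ ≤ R ^ (n + 1) * δ :=
      mul_le_mul_of_nonneg_right (pow_le_pow_right₀ hR (by omega)) hδ
    push_cast
    calc |x| * |x ^ n - x' ^ n| + |x'| ^ n * |x - x'| ≤ R * (n * (R ^ n * δ)) + R ^ n * δ :=
          add_le_add h1 h2
      _ ≤ R * (n * (R ^ n * δ)) + R ^ (n + 1) * δ := by linarith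
      _ = ((n : ℝ) + 1) * (R ^ (n + 1) * δ) := by ring

lemma mon_diff (x y x' y' R δ : ℝ) (hR : 1 ≤ R) (hx : |x| ≤ R) (hy : |y| ≤ R) (hx' : |x'| ≤ R)
    (hy' : |y'| ≤ R) (h1 : |x - x'| ≤ δ) (h2 : |y - y'| ≤ δ) (i j : ℕ) (h : i + j ≤ 7) :
    |x ^ i * y ^ j - x' ^ i * y' ^ j| ≤ 7 * (R ^ 7 * δ) := by
  have hδ : 0 ≤ δ := (abs_nonneg _).trans h1
  have e : x ^ i * y ^ j - x' ^ i * y' ^ j =
      (x ^ i - x' ^ i) * y ^ j + x' ^ i * (y ^ j - y' ^ j) := by ring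
  rw [e]
  refine (abs_add_le _ _).trans ?_
  rw [abs_mul, abs_mul, abs_pow, abs_pow]
  have a1 : |x ^ i - x' ^ i| * |y| ^ j ≤ (i * (R ^ i * δ)) * R ^ j :=
    mul_le_mul (pow_diff x x' R δ hR hx hx' h1 i) (pow_le_pow_left₀ (abs_nonneg _) hy j)
      (by positivity) (by positivity)
  have a2 : |x'| ^ i * |y ^ j - y' ^ j| ≤ R ^ i * (j * (R ^ j * δ)) :=
    mul_le_mul (pow_le_pow_left₀ (abs_nonneg _) hx' i) (pow_diff y y' R δ hR hy hy' h2 j)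
      (abs_nonneg _) (by positivity)
  have a3 : (i * (R ^ i * δ)) * R ^ j + R ^ i * (j * (R ^ j * δ)) =
      ((i + j : ℕ) : ℝ) * (R ^ (i + j) * δ) := by
    push_cast; rw [pow_add]; ring
  have a4 : ((i + j : ℕ) : ℝ) * (R ^ (i + j) * δ) ≤ 7 * (R ^ 7 * δ) := by
    apply mul_le_mul
    · exact_mod_cast h
    · exact mul_le_mul_of_nonneg_right (pow_le_pow_right₀ hR h) hδ
    · positivity
    · norm_num
  linarith

lemma ev_diff {P : List (ℝ × ℕ × ℕ)} (hP : POK P) (x y x' y' R δ : ℝ) (hR : 1 ≤ R)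
    (hx : |x| ≤ R) (hy : |y| ≤ R) (hx' : |x'| ≤ R)
    (hy' : |y'| ≤ R) (h1 : |x - x'| ≤ δ) (h2 : |y - y'| ≤ δ) :
    |ev P x y - ev P x' y'| ≤ cs P * (7 * (R ^ 7 * δ)) := by
  induction P with
  | nil => simp [ev, cs]
  | cons m P ih =>
    rw [ev_cons, ev_cons, cs_cons, add_mul]
    have e : m.1 * (x ^ m.2.1 * y ^ m.2.2) + ev P x y
        - (m.1 * (x' ^ m.2.1 * y' ^ m.2.2) + ev P x' y') =
        m.1 * (x ^ m.2.1 * y ^ m.2.2 - x' ^ m.2.1 * y' ^ m.2.2) + (ev P x y - ev P x' y') := by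
      ring
    rw [e]
    refine (abs_add_le _ _).trans (add_le_add ?_ (ih hP.tail))
    obtain ⟨h3, h4⟩ := hP m List.mem_cons_self
    rw [abs_mul, abs_of_nonneg h3]
    exact mul_le_mul_of_nonneg_left
      (mon_diff x y x' y' R δ hR hx hy hx' hy' h1 h2 _ _ h4) h3

lemma seventh_bound (k t : ℝ) (ht : 0 ≤ t) (h : |k| ≤ 2 * t + 1) :
    |k| ^ 7 ≤ 2187 * t ^ 7 + 2187 := by
  have h1 : |k| ^ 7 ≤ (2 * t + 1) ^ 7 := pow_le_pow_left₀ (abs_nonneg k) h 7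
  rcases le_total t 1 with h2 | h2
  · have h3 : (2 * t + 1) ^ 7 ≤ 3 ^ 7 := pow_le_pow_left₀ (by linarith) (by linarith) 7
    have h4 : 0 ≤ t ^ 7 := by positivity
    norm_num at h3
    linarith
  · have h3 : (2 * t + 1) ^ 7 ≤ (3 * t) ^ 7 := pow_le_pow_left₀ (by linarith) (by linarith) 7
    have h4 : (3 * t) ^ 7 = 2187 * t ^ 7 := by ring
    linarith

noncomputable def Bb2 (g0 a1 a2 dl C4 L ε : ℝ) : ℝ :=
  g0 * (1 - eta C4 L ε) - (a1 + a2) * (L * eta C4 L ε + (C4 + ε) / L ^ 7) - 2 * dl * (C4 + ε)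

noncomputable def Ee2 (S C4 L ε : ℝ) : ℝ :=
  S * (7 * ((2 * L + 1) ^ 7 * (ε * (1 + L))))
   + 4375 * S * ((1 + 2 * L ^ 7) * ε + 3 / L * (2 * (C4 + ε)))

noncomputable def Uu2 (wR wB αR αB ε : ℝ) : ℝ := (wR * αR + wB * αB) / (1 - ε) ^ 2

lemma params2 (g0 a1 a2 dl C4 wR wB αR αB S : ℝ) (hS : 0 ≤ S)
    (hC4 : 0 ≤ C4) (hwR : 0 ≤ wR) (hwB : 0 ≤ wB) (hαR : 0 ≤ αR) (hαB : 0 ≤ αB)
    (h : wR * αR + wB * αB + 2 * dl * C4 < g0) :
    ∃ L ε : ℝ, 1 ≤ L ∧ 0 < ε ∧ ε < 1 / 2 ∧ 0 ≤ Bb2 g0 a1 a2 dl C4 L ε ∧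
      Uu2 wR wB αR αB ε < (1 - 2 * ε) * Bb2 g0 a1 a2 dl C4 L ε - Ee2 S C4 L ε := by
  let F : ℝ → ℝ := fun x => g0 * (1 - 2 * C4 * x ^ 8) - (a1 + a2) * (2 * C4 * x ^ 7 + C4 * x ^ 7)
    - 2 * dl * C4 - 4375 * S * (6 * C4 * x) - (wR * αR + wB * αB)
  have hF : Continuous F := by unfold F; fun_prop
  have hF0 : 0 < F 0 := by unfold F; simp; linarith
  have h1 : ∀ᶠ x in 𝓝[>] (0 : ℝ), 0 < F x :=
    nhdsWithin_le_nhds (hF.continuousAt.eventually (lt_mem_nhds hF0))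
  have h2 : ∀ᶠ x in 𝓝[>] (0 : ℝ), x < 1 :=
    nhdsWithin_le_nhds (gt_mem_nhds (by norm_num))
  have h3 : ∀ᶠ x in 𝓝[>] (0 : ℝ), 0 < x := self_mem_nhdsWithin
  obtain ⟨x, hFx, hx1, hx0⟩ := (h1.and (h2.and h3)).exists
  have hL1 : 1 ≤ x⁻¹ := (one_le_inv₀ hx0).2 hx1.le
  have hL0 : 0 < x⁻¹ := by positivity
  have e0 : Bb2 g0 a1 a2 dl C4 x⁻¹ 0 - Ee2 S C4 x⁻¹ 0 - Uu2 wR wB αR αB 0 = F x := by
    unfold Bb2 Ee2 Uu2 eta F
    have hx := hx0.ne'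
    field_simp
    ring
  have e1 : 0 ≤ Ee2 S C4 x⁻¹ 0 := by
    unfold Ee2
    positivity
  have e2 : 0 ≤ Uu2 wR wB αR αB 0 := by
    unfold Uu2
    positivity
  generalize x⁻¹ = L at *
  have c1 : ContinuousAt (fun ε : ℝ => Bb2 g0 a1 a2 dl C4 L ε) 0 := by
    unfold Bb2 eta
    fun_prop
  have c2 : ContinuousAt (fun ε : ℝ => (1 - 2 * ε) * Bb2 g0 a1 a2 dl C4 L ε - Ee2 S C4 L ε
      - Uu2 wR wB αR αB ε) 0 := by
    unfold Ee2 Uu2
    refine ContinuousAt.sub (ContinuousAt.sub (ContinuousAt.mul (by fun_prop) c1)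
      (by fun_prop)) ?_
    refine ContinuousAt.div (by fun_prop) (by fun_prop) (by norm_num)
  have g1 : ∀ᶠ ε in 𝓝[>] (0 : ℝ), 0 < Bb2 g0 a1 a2 dl C4 L ε :=
    nhdsWithin_le_nhds (c1.eventually (lt_mem_nhds (by linarith)))
  have g2 : ∀ᶠ ε in 𝓝[>] (0 : ℝ), 0 < (1 - 2 * ε) * Bb2 g0 a1 a2 dl C4 L ε - Ee2 S C4 L ε
      - Uu2 wR wB αR αB ε :=
    nhdsWithin_le_nhds (c2.eventually (lt_mem_nhds (by simp only [mul_zero, sub_zero, one_mul]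
                                                       linarith)))
  have g3 : ∀ᶠ x in 𝓝[>] (0 : ℝ), x < 1 / 2 :=
    nhdsWithin_le_nhds (gt_mem_nhds (by norm_num))
  have g4 : ∀ᶠ x in 𝓝[>] (0 : ℝ), 0 < x := self_mem_nhdsWithin
  obtain ⟨ε, k1, k2, k3, k4⟩ := (g1.and (g2.and (g3.and g4))).exists
  exact ⟨L, ε, hL1, k4, k3, k1.le, by linarith⟩

lemma sevenths_tail (x y L : ℝ) (hL : 1 ≤ L) (h : ¬ (|x| ≤ L ∧ |y| ≤ L)) :
    1 + |x| ^ 7 + |y| ^ 7 ≤ 3 / L * (x ^ 8 + y ^ 8) := by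
  have hL0 : 0 < L := by linarith
  rw [← Even.pow_abs (n := 8) (by decide) x, ← Even.pow_abs (n := 8) (by decide) y,
    div_mul_eq_mul_div, le_div_iff₀ hL0]
  have hx := abs_nonneg x
  have hy := abs_nonneg y
  generalize |x| = X at *
  generalize |y| = Y at *
  have key : ∀ m n : ℝ, 0 ≤ m → 0 ≤ n → n ≤ m → L < m →
      (1 + m ^ 7 + n ^ 7) * L ≤ 3 * m ^ 8 := by
    intro m n hm hn hnm hLm
    have h1 : n ^ 7 ≤ m ^ 7 := pow_le_pow_left₀ hn hnm 7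
    have h2 : 1 ≤ m ^ 7 := one_le_pow₀ (by linarith)
    have h3 : (1 + m ^ 7 + n ^ 7) * L ≤ (3 * m ^ 7) * m :=
      mul_le_mul (by linarith) hLm.le hL0.le (by positivity)
    have h4 : (3 * m ^ 7) * m = 3 * m ^ 8 := by ring
    linarith
  have hX4 : 0 ≤ X ^ 8 := by positivity
  have hY4 : 0 ≤ Y ^ 8 := by positivity
  rcases le_total X Y with hXY | hXY
  · have h1 : L < Y := by
      by_contra hc
      push Not at hc
      exact h ⟨hXY.trans hc, hc⟩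
    have := key Y X hy hx hXY h1
    nlinarith
  · have h1 : L < X := by
      by_contra hc
      push Not at hc
      exact h ⟨hc, hXY.trans hc⟩
    have := key X Y hx hy hXY h1
    nlinarith

lemma core2 {V : Type} [DecidableEq V] (X Xg Q : Finset V) (ρ : V → ℝ) (x1 x2 k1 k2 : V → ℝ)
    (v : V) (g0 a1 a2 : ℝ) (P : List (ℝ × ℕ × ℕ)) (dl C4 L ε : ℝ)
    (hg : 0 ≤ g0) (ha1 : 0 ≤ a1) (ha2 : 0 ≤ a2) (hP : POK P) (hdl : 0 ≤ dl)
    (hL : 1 ≤ L) (hε : 0 < ε) (hε1 : ε ≤ 1)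
    (hXg : Xg ⊆ X) (hρ : ∀ z ∈ X, 0 ≤ ρ z) (hρ1 : ∑ z ∈ X, ρ z = 1)
    (hbad : ∑ z ∈ X, ρ z - ∑ z ∈ Xg, ρ z ≤ 2 * ε) (hv : v ∈ Xg) (hρv : ρ v ≤ ε)
    (hm1 : ∑ z ∈ X, ρ z * x1 z = 0) (hm2 : ∑ z ∈ X, ρ z * x2 z = 0)
    (hf1 : ∑ z ∈ X, ρ z * x1 z ^ 8 ≤ C4 + ε) (hf2 : ∑ z ∈ X, ρ z * x2 z ^ 8 ≤ C4 + ε)
    (hc1 : ∀ z ∈ Xg, |k1 z - x1 z| ≤ ε * (1 + |x1 z|))
    (hc2 : ∀ z ∈ Xg, |k2 z - x2 z| ≤ ε * (1 + |x2 z|))
    (hQ : Q = Xg.filter (fun z => z ≠ v ∧ |x1 z| ≤ L ∧ |x2 z| ≤ L)) :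
    Bb2 g0 a1 a2 dl C4 L ε + ∑ z ∈ Xg, ρ z * ev P (k1 z) (k2 z) - Ee2 (cs P) C4 L ε ≤
      ∑ z ∈ Q, ρ z * G2 g0 a1 a2 P dl (x1 z) (x2 z) := by
  have hS0 : 0 ≤ cs P := cs_nonneg hP
  obtain ⟨S, hS⟩ : ∃ S, S = cs P := ⟨_, rfl⟩
  rw [← hS] at hS0
  have hL0 : 0 < L := by linarith
  have hQg : Q ⊆ Xg := by rw [hQ]; exact Finset.filter_subset _ _
  have hQX : Q ⊆ X := hQg.trans hXg
  have memQ : ∀ z, z ∈ Q ↔ z ∈ Xg ∧ (z ≠ v ∧ |x1 z| ≤ L ∧ |x2 z| ≤ L) := by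
    intro z; rw [hQ, Finset.mem_filter]
  have hρg : ∀ z ∈ Xg, 0 ≤ ρ z := fun z hz => hρ z (hXg hz)
  have hρQ : ∀ z ∈ Q, 0 ≤ ρ z := fun z hz => hρ z (hQX hz)
  have mono : ∀ S : Finset V, S ⊆ X → ∀ f : V → ℝ, (∀ z, 0 ≤ f z) →
      ∑ z ∈ S, ρ z * f z ≤ ∑ z ∈ X, ρ z * f z := by
    intro S hS f hf
    exact Finset.sum_le_sum_of_subset_of_nonneg hS (fun z hz _ => mul_nonneg (hρ z hz) (hf z))
  have monog : ∀ f : V → ℝ, (∀ z, 0 ≤ f z) →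
      ∑ z ∈ Xg \ Q, ρ z * f z ≤ ∑ z ∈ Xg, ρ z * f z := by
    intro f hf
    exact Finset.sum_le_sum_of_subset_of_nonneg Finset.sdiff_subset
      (fun z hz _ => mul_nonneg (hρg z hz) (hf z))
  have sumv : ∀ c : ℝ, ∑ z ∈ Xg, ρ z * (if z = v then c else 0) = ρ v * c := by
    intro c
    simp [mul_ite, hv]
  have g1 : ∑ z ∈ Xg, ρ z * x1 z ^ 8 ≤ C4 + ε :=
    (mono Xg hXg (fun z => x1 z ^ 8) (fun z => by positivity)).trans hf1
  have g2 : ∑ z ∈ Xg, ρ z * x2 z ^ 8 ≤ C4 + ε :=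
    (mono Xg hXg (fun z => x2 z ^ 8) (fun z => by positivity)).trans hf2
  -- (a) the mass of the complement of Q
  have ma : ∑ z ∈ Xg \ Q, ρ z ≤ ε + 2 * (C4 + ε) / L ^ 8 := by
    have h1 : ∑ z ∈ Xg \ Q, ρ z ≤ ∑ z ∈ Xg \ Q, ρ z *
        ((if z = v then 1 else 0) + x1 z ^ 8 / L ^ 8 + x2 z ^ 8 / L ^ 8) := by
      refine Finset.sum_le_sum fun z hz => ?_
      rw [Finset.mem_sdiff, memQ] at hz
      have h2 : (0 : ℝ) ≤ (if z = v then 1 else 0) := by split_ifs <;> norm_num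
      have h3 : 0 ≤ x1 z ^ 8 / L ^ 8 := by positivity
      have h4 : 0 ≤ x2 z ^ 8 / L ^ 8 := by positivity
      have h5 : 1 ≤ (if z = v then 1 else 0) + x1 z ^ 8 / L ^ 8 + x2 z ^ 8 / L ^ 8 := by
        by_cases hzv : z = v
        · rw [if_pos hzv]; linarith
        · by_cases h6 : |x1 z| ≤ L
          · have h7 : ¬ |x2 z| ≤ L := fun h7 => hz.2 ⟨hz.1, hzv, h6, h7⟩
            have := one_le_tail _ L hL h7
            linarith
          · have := one_le_tail _ L hL h6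
            linarith
      have h6 := mul_le_mul_of_nonneg_left h5 (hρg z hz.1)
      linarith
    refine h1.trans ((monog _ (fun z => ?_)).trans ?_)
    · have h2 : (0 : ℝ) ≤ (if z = v then 1 else 0) := by split_ifs <;> norm_num
      positivity
    · simp only [mul_add, Finset.sum_add_distrib]
      rw [sumv]
      have e1 : ∑ z ∈ Xg, ρ z * (x1 z ^ 8 / L ^ 8) = (∑ z ∈ Xg, ρ z * x1 z ^ 8) / L ^ 8 := by
        rw [Finset.sum_div]
        exact Finset.sum_congr rfl fun z _ => by rw [mul_div_assoc]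
      have e2 : ∑ z ∈ Xg, ρ z * (x2 z ^ 8 / L ^ 8) = (∑ z ∈ Xg, ρ z * x2 z ^ 8) / L ^ 8 := by
        rw [Finset.sum_div]
        exact Finset.sum_congr rfl fun z _ => by rw [mul_div_assoc]
      rw [e1, e2]
      have e3 : (∑ z ∈ Xg, ρ z * x1 z ^ 8) / L ^ 8 ≤ (C4 + ε) / L ^ 8 :=
        div_le_div_of_nonneg_right g1 (by positivity)
      have e4 : (∑ z ∈ Xg, ρ z * x2 z ^ 8) / L ^ 8 ≤ (C4 + ε) / L ^ 8 :=
        div_le_div_of_nonneg_right g2 (by positivity)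
      have e6 : (2 * C4 + 2 * ε) / L ^ 8 = (C4 + ε) / L ^ 8 + (C4 + ε) / L ^ 8 := by ring
      rw [e6]; linarith
  have sXg : ∑ z ∈ Xg \ Q, ρ z + ∑ z ∈ Q, ρ z = ∑ z ∈ Xg, ρ z := Finset.sum_sdiff hQg
  have sX : ∑ z ∈ X \ Q, ρ z + ∑ z ∈ Q, ρ z = ∑ z ∈ X, ρ z := Finset.sum_sdiff hQX
  have mass : ∑ z ∈ X \ Q, ρ z ≤ eta C4 L ε := by
    unfold eta
    linarith
  have massQ : 1 - eta C4 L ε ≤ ∑ z ∈ Q, ρ z := by linarith
  have massQ1 : ∑ z ∈ Q, ρ z ≤ 1 := by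
    have := mono Q hQX (fun _ => 1) (fun _ => by norm_num)
    simpa [hρ1] using this
  -- (b) linear terms
  have lin : ∀ x : V → ℝ, ∑ z ∈ X, ρ z * x z = 0 → ∑ z ∈ X, ρ z * x z ^ 8 ≤ C4 + ε →
      -(L * eta C4 L ε + (C4 + ε) / L ^ 7) ≤ ∑ z ∈ Q, ρ z * x z := by
    intro x hm hf
    have h1 : ∑ z ∈ X \ Q, ρ z * x z + ∑ z ∈ Q, ρ z * x z = ∑ z ∈ X, ρ z * x z :=
      Finset.sum_sdiff hQX
    have h2 : ∑ z ∈ X \ Q, ρ z * x z ≤ ∑ z ∈ X \ Q, (L * ρ z + ρ z * x z ^ 8 / L ^ 7) := by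
      refine Finset.sum_le_sum fun z hz => ?_
      have h3 := (le_abs_self (x z)).trans (abs_le_tail (x z) L hL)
      have h4 := mul_le_mul_of_nonneg_left h3 (hρ z (Finset.mem_sdiff.1 hz).1)
      calc ρ z * x z ≤ ρ z * (L + x z ^ 8 / L ^ 7) := h4
        _ = L * ρ z + ρ z * x z ^ 8 / L ^ 7 := by ring
    rw [Finset.sum_add_distrib, ← Finset.mul_sum, ← Finset.sum_div] at h2
    have h5 : (∑ z ∈ X \ Q, ρ z * x z ^ 8) ≤ C4 + ε :=
      (mono _ Finset.sdiff_subset (fun z => x z ^ 8) (fun z => by positivity)).trans hf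
    have h6 : (∑ z ∈ X \ Q, ρ z * x z ^ 8) / L ^ 7 ≤ (C4 + ε) / L ^ 7 :=
      div_le_div_of_nonneg_right h5 (by positivity)
    have h7 := mul_le_mul_of_nonneg_left mass hL0.le
    linarith
  have lin1 := lin x1 hm1 hf1
  have lin2 := lin x2 hm2 hf2
  have q1 : ∑ z ∈ Q, ρ z * x1 z ^ 8 ≤ C4 + ε :=
    (mono Q hQX (fun z => x1 z ^ 8) (fun z => by positivity)).trans hf1
  have q2 : ∑ z ∈ Q, ρ z * x2 z ^ 8 ≤ C4 + ε :=
    (mono Q hQX (fun z => x2 z ^ 8) (fun z => by positivity)).trans hf2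
  -- (c) the polynomial
  have kb : ∀ k x : ℝ, |k - x| ≤ ε * (1 + |x|) → |k| ≤ 2 * |x| + 1 := by
    intro k x h
    have h1 : |k| ≤ |k - x| + |x| := by
      have := abs_add_le (k - x) x
      simpa using this
    have h2 : ε * (1 + |x|) ≤ 1 * (1 + |x|) :=
      mul_le_mul_of_nonneg_right hε1 (by positivity)
    linarith
  have pc : ∑ z ∈ Xg \ Q, ρ z * ev P (k1 z) (k2 z) ≤
      4375 * S * ((1 + 2 * L ^ 7) * ε + 3 / L * (2 * (C4 + ε))) := by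
    have h1 : ∑ z ∈ Xg \ Q, ρ z * ev P (k1 z) (k2 z) ≤ ∑ z ∈ Xg \ Q, ρ z *
        (4375 * S * ((if z = v then (1 + 2 * L ^ 7) else 0)
          + 3 / L * (x1 z ^ 8 + x2 z ^ 8))) := by
      refine Finset.sum_le_sum fun z hz => ?_
      rw [Finset.mem_sdiff, memQ] at hz
      refine mul_le_mul_of_nonneg_left ?_ (hρg z hz.1)
      have h2 := kb _ _ (hc1 z hz.1)
      have h3 := kb _ _ (hc2 z hz.1)
      have h4 := seventh_bound _ _ (abs_nonneg _) h2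
      have h5 := seventh_bound _ _ (abs_nonneg _) h3
      have h6 := (le_abs_self _).trans (ev_bound hP (k1 z) (k2 z))
      rw [← hS] at h6
      have h71 : 0 ≤ |x1 z| ^ 7 := by positivity
      have h72 : 0 ≤ |x2 z| ^ 7 := by positivity
      have h7 : S * (1 + |k1 z| ^ 7 + |k2 z| ^ 7) ≤
          S * (4375 * (1 + |x1 z| ^ 7 + |x2 z| ^ 7)) :=
        mul_le_mul_of_nonneg_left (by linarith) hS0
      have h8 : 1 + |x1 z| ^ 7 + |x2 z| ^ 7 ≤ (if z = v then (1 + 2 * L ^ 7) else 0)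
          + 3 / L * (x1 z ^ 8 + x2 z ^ 8) := by
        by_cases h9 : |x1 z| ≤ L ∧ |x2 z| ≤ L
        · have hzv : z = v := by
            by_contra hne
            exact hz.2 ⟨hz.1, hne, h9.1, h9.2⟩
          rw [if_pos hzv]
          have h10 := pow_le_pow_left₀ (abs_nonneg _) h9.1 7
          have h11 := pow_le_pow_left₀ (abs_nonneg _) h9.2 7
          have h12 : 0 ≤ 3 / L * (x1 z ^ 8 + x2 z ^ 8) := by positivity
          linarith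
        · have h10 := sevenths_tail (x1 z) (x2 z) L hL h9
          have h12 : (0 : ℝ) ≤ (if z = v then (1 + 2 * L ^ 7) else 0) := by
            split_ifs <;> positivity
          linarith
      have h9 := mul_le_mul_of_nonneg_left h8 (show 0 ≤ 4375 * S by positivity)
      linarith
    refine h1.trans ((monog _ (fun z => ?_)).trans ?_)
    · have h12 : (0 : ℝ) ≤ (if z = v then (1 + 2 * L ^ 7) else 0) := by
        split_ifs <;> positivity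
      positivity
    · have e1 : ∑ z ∈ Xg, ρ z * (4375 * S * ((if z = v then (1 + 2 * L ^ 7) else 0)
          + 3 / L * (x1 z ^ 8 + x2 z ^ 8))) = 4375 * S * (
          ∑ z ∈ Xg, ρ z * (if z = v then (1 + 2 * L ^ 7) else 0)
          + 3 / L * (∑ z ∈ Xg, ρ z * x1 z ^ 8 + ∑ z ∈ Xg, ρ z * x2 z ^ 8)) := by
        rw [← Finset.sum_add_distrib, Finset.mul_sum, ← Finset.sum_add_distrib, Finset.mul_sum]
        exact Finset.sum_congr rfl fun z _ => by ring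
      rw [e1, sumv]
      refine mul_le_mul_of_nonneg_left ?_ (by positivity)
      have e2 : ρ v * (1 + 2 * L ^ 7) ≤ (1 + 2 * L ^ 7) * ε := by
        rw [mul_comm]
        exact mul_le_mul_of_nonneg_left hρv (by positivity)
      have e3 : 3 / L * (∑ z ∈ Xg, ρ z * x1 z ^ 8 + ∑ z ∈ Xg, ρ z * x2 z ^ 8) ≤
          3 / L * (2 * (C4 + ε)) := mul_le_mul_of_nonneg_left (by linarith) (by positivity)
      linarith
  have pd : ∑ z ∈ Q, ρ z * ev P (k1 z) (k2 z) ≤ ∑ z ∈ Q, ρ z * ev P (x1 z) (x2 z) +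
      S * (7 * ((2 * L + 1) ^ 7 * (ε * (1 + L)))) := by
    have h1 : ∀ z ∈ Q, ρ z * ev P (k1 z) (k2 z) ≤ ρ z * ev P (x1 z) (x2 z) +
        ρ z * (S * (7 * ((2 * L + 1) ^ 7 * (ε * (1 + L))))) := by
      intro z hz
      rw [← mul_add]
      refine mul_le_mul_of_nonneg_left ?_ (hρQ z hz)
      obtain ⟨hzg, -, h2, h3⟩ := (memQ z).1 hz
      have h4 := kb _ _ (hc1 z hzg)
      have h5 := kb _ _ (hc2 z hzg)
      have h6 : |k1 z - x1 z| ≤ ε * (1 + L) :=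
        (hc1 z hzg).trans (mul_le_mul_of_nonneg_left (by linarith) hε.le)
      have h7 : |k2 z - x2 z| ≤ ε * (1 + L) :=
        (hc2 z hzg).trans (mul_le_mul_of_nonneg_left (by linarith) hε.le)
      have h8 := (le_abs_self _).trans (ev_diff hP (k1 z) (k2 z) (x1 z) (x2 z) (2 * L + 1)
        (ε * (1 + L)) (by linarith) (by linarith) (by linarith) (by linarith) (by linarith) h6 h7)
      rw [← hS] at h8
      linarith
    have h2 := Finset.sum_le_sum h1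
    rw [Finset.sum_add_distrib, ← Finset.sum_mul] at h2
    have h3 : (∑ z ∈ Q, ρ z) * (S * (7 * ((2 * L + 1) ^ 7 * (ε * (1 + L))))) ≤
        1 * (S * (7 * ((2 * L + 1) ^ 7 * (ε * (1 + L))))) :=
      mul_le_mul_of_nonneg_right massQ1 (by positivity)
    linarith
  have pX : ∑ z ∈ Xg \ Q, ρ z * ev P (k1 z) (k2 z) + ∑ z ∈ Q, ρ z * ev P (k1 z) (k2 z)
      = ∑ z ∈ Xg, ρ z * ev P (k1 z) (k2 z) := Finset.sum_sdiff hQg
  have tot : ∑ z ∈ Q, ρ z * G2 g0 a1 a2 P dl (x1 z) (x2 z) = g0 * ∑ z ∈ Q, ρ z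
      + (a1 * ∑ z ∈ Q, ρ z * x1 z + a2 * ∑ z ∈ Q, ρ z * x2 z)
      + ∑ z ∈ Q, ρ z * ev P (x1 z) (x2 z)
      - dl * (∑ z ∈ Q, ρ z * x1 z ^ 8 + ∑ z ∈ Q, ρ z * x2 z ^ 8) := by
    rw [← Finset.sum_add_distrib, Finset.mul_sum, Finset.mul_sum, Finset.mul_sum, Finset.mul_sum,
      ← Finset.sum_add_distrib, ← Finset.sum_add_distrib, ← Finset.sum_add_distrib,
      ← Finset.sum_sub_distrib]
    exact Finset.sum_congr rfl fun z _ => by unfold G2; ring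
  rw [tot]
  have t1 := mul_le_mul_of_nonneg_left massQ hg
  have t2 := mul_le_mul_of_nonneg_left lin1 ha1
  have t22 := mul_le_mul_of_nonneg_left lin2 ha2
  have t3 := mul_le_mul_of_nonneg_left (add_le_add q1 q2) hdl
  unfold Bb2 Ee2
  rw [← hS]
  linarith

lemma gram_one {V : Type} (Xg : Finset V) : Gram Xg (fun _ _ => (1 : ℝ)) :=
  ⟨Unit, Finset.univ, fun _ => 1, fun _ _ => 1, fun _ _ => by norm_num, fun _ _ _ _ => by simp⟩

lemma gram_pow {V : Type} {Xg : Finset V} {F : V → V → ℝ} (h : Gram Xg F) (n : ℕ) :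
    Gram Xg (fun v z => F v z ^ n) := by
  induction n with
  | zero => simpa using gram_one Xg
  | succ n ih =>
    have := ih.mul h
    simpa [pow_succ] using this

lemma ev_sum_nonneg {V : Type} {Xg : Finset V} {K1 K2 : V → V → ℝ} (g1 : Gram Xg K1)
    (g2 : Gram Xg K2) (ρ : V → ℝ) {P : List (ℝ × ℕ × ℕ)} (hP : POK P) :
    0 ≤ ∑ v ∈ Xg, ρ v * ∑ z ∈ Xg, ρ z * ev P (K1 v z) (K2 v z) := by
  induction P with
  | nil => simp [ev]
  | cons m P ih =>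
    have h1 : ∑ v ∈ Xg, ρ v * ∑ z ∈ Xg, ρ z * ev (m :: P) (K1 v z) (K2 v z) =
        m.1 * (∑ v ∈ Xg, ρ v * ∑ z ∈ Xg, ρ z * (K1 v z ^ m.2.1 * K2 v z ^ m.2.2)) +
        ∑ v ∈ Xg, ρ v * ∑ z ∈ Xg, ρ z * ev P (K1 v z) (K2 v z) := by
      simp only [Finset.mul_sum, ← Finset.sum_add_distrib]
      refine Finset.sum_congr rfl fun v _ => Finset.sum_congr rfl fun z _ => ?_
      rw [ev_cons]; ring
    rw [h1]
    have h2 := ((gram_pow g1 m.2.1).mul (gram_pow g2 m.2.2)).nonneg ρ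
    exact add_nonneg (mul_nonneg (hP m List.mem_cons_self).1 h2) (ih hP.tail)

theorem combine2 : Combine2 := by
  intro T1 T2 wR wB g0 a1 a2 P dl C4 αR αB hC hC4 hαR hαB hlt
  obtain ⟨-, -, -, -, hwR, hwB, hg, ha1, ha2, hP, hdl, hcR, hcB⟩ := hC
  obtain ⟨L, ε, hL, hε, hε2, hB0, hfin⟩ := params2 g0 a1 a2 dl C4 wR wB αR αB (cs P)
    (cs_nonneg hP) hC4 hwR hwB hαR hαB (by linarith)
  refine ⟨L, ε, by linarith, hε, by linarith, ?_⟩
  intro V _ X Xg Y1 Y2 ρ ξ1 ξ2 K1 K2 Rd Bl hXg hρ hρ1 hbad hρε hm1 hm2 hf1 hf2 hG1 hG2 hc1 hc2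
    hRB hR hB
  classical
  have hε1 : (0 : ℝ) < (1 - ε) ^ 2 := by
    have : 0 < 1 - ε := by linarith
    positivity
  -- upper bound
  have up : ∀ v ∈ Xg, ∑ z ∈ Xg.filter (fun z => z ≠ v ∧ |ξ1 v z| ≤ L ∧ |ξ2 v z| ≤ L),
      ρ z * G2 g0 a1 a2 P dl (ξ1 v z) (ξ2 v z) ≤ Uu2 wR wB αR αB ε := by
    intro v hv
    set Q := Xg.filter (fun z => z ≠ v ∧ |ξ1 v z| ≤ L ∧ |ξ2 v z| ≤ L) with hQ
    have memQ : ∀ z, z ∈ Q ↔ z ∈ Xg ∧ (z ≠ v ∧ |ξ1 v z| ≤ L ∧ |ξ2 v z| ≤ L) := by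
      intro z; rw [hQ, Finset.mem_filter]
    have hQg : Q ⊆ Xg := Finset.filter_subset _ _
    have h1 := hR v hv (Q.filter (fun z => Rd v z)) ((Finset.filter_subset _ _).trans hQg) (by
      intro z hz
      rw [Finset.mem_filter, memQ] at hz
      exact ⟨hz.2, hz.1.2.2⟩)
    have h2 := hB v hv (Q.filter (fun z => ¬ Rd v z)) ((Finset.filter_subset _ _).trans hQg) (by
      intro z hz
      rw [Finset.mem_filter, memQ] at hz
      exact ⟨(hRB v hv z hz.1.1 (Ne.symm hz.1.2.1)).resolve_left hz.2, hz.1.2.2⟩)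
    rw [← Finset.sum_filter_add_sum_filter_not Q (fun z => Rd v z)]
    have h3 : ∑ z ∈ Q.filter (fun z => Rd v z), ρ z * G2 g0 a1 a2 P dl (ξ1 v z) (ξ2 v z) ≤
        wR * (∑ z ∈ Q.filter (fun z => Rd v z), ρ z * Real.exp (ξ1 v z + T2 * ξ2 v z)) := by
      rw [Finset.mul_sum]
      refine Finset.sum_le_sum fun z hz => ?_
      rw [Finset.mem_filter, memQ] at hz
      have h4 := mul_le_mul_of_nonneg_left (hcR (ξ1 v z) (ξ2 v z)) (hρ z (hXg hz.1.1))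
      linarith
    have h4 : ∑ z ∈ Q.filter (fun z => ¬ Rd v z), ρ z * G2 g0 a1 a2 P dl (ξ1 v z) (ξ2 v z) ≤
        wB * (∑ z ∈ Q.filter (fun z => ¬ Rd v z), ρ z * Real.exp (T1 * ξ1 v z + ξ2 v z)) := by
      rw [Finset.mul_sum]
      refine Finset.sum_le_sum fun z hz => ?_
      rw [Finset.mem_filter, memQ] at hz
      have h4 := mul_le_mul_of_nonneg_left (hcB (ξ1 v z) (ξ2 v z)) (hρ z (hXg hz.1.1))
      linarith
    have h5 : ∑ z ∈ Q.filter (fun z => Rd v z), ρ z * Real.exp (ξ1 v z + T2 * ξ2 v z) ≤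
        αR / (1 - ε) ^ 2 := by
      rw [le_div_iff₀ hε1, mul_comm]; exact h1
    have h6 : ∑ z ∈ Q.filter (fun z => ¬ Rd v z), ρ z * Real.exp (T1 * ξ1 v z + ξ2 v z) ≤
        αB / (1 - ε) ^ 2 := by
      rw [le_div_iff₀ hε1, mul_comm]; exact h2
    have h7 : Uu2 wR wB αR αB ε = wR * (αR / (1 - ε) ^ 2) + wB * (αB / (1 - ε) ^ 2) := by
      unfold Uu2
      ring
    rw [h7]
    have h8 := mul_le_mul_of_nonneg_left h5 hwR
    have h9 := mul_le_mul_of_nonneg_left h6 hwB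
    linarith
  have per : ∀ v ∈ Xg, ρ v * (∑ z ∈ Xg, ρ z * ev P (K1 v z) (K2 v z)) ≤
      ρ v * (Uu2 wR wB αR αB ε - Bb2 g0 a1 a2 dl C4 L ε + Ee2 (cs P) C4 L ε) := by
    intro v hv
    refine mul_le_mul_of_nonneg_left ?_ (hρ v (hXg hv))
    have h1 := core2 X Xg _ ρ (ξ1 v) (ξ2 v) (K1 v) (K2 v) v g0 a1 a2 P dl C4 L ε hg ha1 ha2 hP
      hdl hL hε (by linarith) hXg hρ hρ1 hbad hv (hρε v (hXg hv)) (hm1 v hv) (hm2 v hv)
      (hf1 v hv) (hf2 v hv) (hc1 v hv) (hc2 v hv) rfl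
    have h2 := up v hv
    linarith
  have h1 := Finset.sum_le_sum per
  rw [← Finset.sum_mul] at h1
  have gr1 : Gram Xg K1 := by
    obtain ⟨wt, g, h0, h2⟩ := hG1
    exact ⟨V, Y1, wt, g, h0, h2⟩
  have gr2 : Gram Xg K2 := by
    obtain ⟨wt, g, h0, h2⟩ := hG2
    exact ⟨V, Y2, wt, g, h0, h2⟩
  have n1 := ev_sum_nonneg gr1 gr2 ρ hP
  have h3 : 0 ≤ (∑ v ∈ Xg, ρ v) * (Uu2 wR wB αR αB ε - Bb2 g0 a1 a2 dl C4 L ε
      + Ee2 (cs P) C4 L ε) := by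
    linarith
  have h4 : 0 < ∑ v ∈ Xg, ρ v := by linarith
  have h5 : 0 ≤ Uu2 wR wB αR αB ε - Bb2 g0 a1 a2 dl C4 L ε + Ee2 (cs P) C4 L ε := by
    by_contra hc
    push Not at hc
    have := mul_neg_of_pos_of_neg h4 hc
    linarith
  have h6 : 0 ≤ 2 * ε * Bb2 g0 a1 a2 dl C4 L ε := by positivity
  linarith

end Pool.Agent.TH428.RM
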