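import Pool.Agent.W478R.Defs

set_option autoImplicit false

/-!
# Asymmetric certificates for the two-reservoir game

`ev P x y = ∑ c x ^ i y ^ j` over the monomials `(c, i, j)` of the list `P`. A certificate has weights
`wR, wB`, tilts `T1, T2` and the polynomial
`g0 + a1 x + a2 y + ev P x y - dl (x ^ 8 + y ^ 8)`, which is below `wR exp (x + T2 y)` and
`wB exp (T1 x + y)`.
-/

open Finset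

namespace Pool.Agent.TH428.RM

open H110R2 W478R

/-- value of a list of monomials -/
noncomputable def ev (P : List (ℝ × ℕ × ℕ)) (x y : ℝ) : ℝ :=
  (P.map (fun m => m.1 * (x ^ m.2.1 * y ^ m.2.2))).sum

/-- sum of the coefficients -/
noncomputable def cs (P : List (ℝ × ℕ × ℕ)) : ℝ := (P.map (fun m => m.1)).sum

/-- nonnegative coefficients and degree at most seven -/
def POK (P : List (ℝ × ℕ × ℕ)) : Prop := ∀ m ∈ P, 0 ≤ m.1 ∧ m.2.1 + m.2.2 ≤ 7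

/-- the certificate polynomial -/
noncomputable def G2 (g0 a1 a2 : ℝ) (P : List (ℝ × ℕ × ℕ)) (dl x y : ℝ) : ℝ :=
  g0 + a1 * x + a2 * y + ev P x y - dl * (x ^ 8 + y ^ 8)

/-- validity of the certificate -/
structure Cert2 (T1 T2 wR wB g0 a1 a2 : ℝ) (P : List (ℝ × ℕ × ℕ)) (dl : ℝ) : Prop where
  hT10 : 0 < T1
  hT11 : T1 < 1
  hT20 : 0 < T2
  hT21 : T2 < 1
  hwR : 0 ≤ wR
  hwB : 0 ≤ wB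
  hg : 0 ≤ g0
  ha1 : 0 ≤ a1
  ha2 : 0 ≤ a2
  hP : POK P
  hdl : 0 ≤ dl
  hR : ∀ x y : ℝ, G2 g0 a1 a2 P dl x y ≤ wR * Real.exp (x + T2 * y)
  hB : ∀ x y : ℝ, G2 g0 a1 a2 P dl x y ≤ wB * Real.exp (T1 * x + y)

/-- **Combination.** If all red and all blue continuations fail, contradiction. -/
def Combine2 : Prop :=
  ∀ (T1 T2 wR wB g0 a1 a2 : ℝ) (P : List (ℝ × ℕ × ℕ)) (dl C8 αR αB : ℝ),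
    Cert2 T1 T2 wR wB g0 a1 a2 P dl → 0 ≤ C8 → 0 ≤ αR → 0 ≤ αB →
    wR * αR + wB * αB + 2 * dl * C8 < g0 →
  ∃ L ε : ℝ, 0 < L ∧ 0 < ε ∧ ε < 1 ∧
  ∀ (V : Type) [DecidableEq V] (X Xg Y1 Y2 : Finset V) (ρ : V → ℝ) (ξ1 ξ2 K1 K2 : V → V → ℝ)
    (Rd Bl : V → V → Prop),
    Xg ⊆ X → (∀ z ∈ X, 0 ≤ ρ z) → ∑ z ∈ X, ρ z = 1 → ∑ z ∈ X, ρ z - ∑ z ∈ Xg, ρ z ≤ 2 * ε →
    (∀ z ∈ X, ρ z ≤ ε) →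
    (∀ v ∈ Xg, ∑ z ∈ X, ρ z * ξ1 v z = 0) → (∀ v ∈ Xg, ∑ z ∈ X, ρ z * ξ2 v z = 0) →
    (∀ v ∈ Xg, ∑ z ∈ X, ρ z * ξ1 v z ^ 8 ≤ C8 + ε) →
    (∀ v ∈ Xg, ∑ z ∈ X, ρ z * ξ2 v z ^ 8 ≤ C8 + ε) →
    (∃ (wt : V → ℝ) (g : V → V → ℝ), (∀ y ∈ Y1, 0 ≤ wt y) ∧
      ∀ v ∈ Xg, ∀ z ∈ Xg, K1 v z = ∑ y ∈ Y1, wt y * g v y * g z y) →
    (∃ (wt : V → ℝ) (g : V → V → ℝ), (∀ y ∈ Y2, 0 ≤ wt y) ∧
      ∀ v ∈ Xg, ∀ z ∈ Xg, K2 v z = ∑ y ∈ Y2, wt y * g v y * g z y) →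
    (∀ v ∈ Xg, ∀ z ∈ Xg, |K1 v z - ξ1 v z| ≤ ε * (1 + |ξ1 v z|)) →
    (∀ v ∈ Xg, ∀ z ∈ Xg, |K2 v z - ξ2 v z| ≤ ε * (1 + |ξ2 v z|)) →
    (∀ v ∈ Xg, ∀ z ∈ Xg, v ≠ z → Rd v z ∨ Bl v z) →
    (∀ v ∈ Xg, ∀ Q ⊆ Xg, (∀ z ∈ Q, Rd v z ∧ |ξ1 v z| ≤ L ∧ |ξ2 v z| ≤ L) →
      (1 - ε) ^ 2 * ∑ z ∈ Q, ρ z * Real.exp (ξ1 v z + T2 * ξ2 v z) ≤ αR) →
    (∀ v ∈ Xg, ∀ Q ⊆ Xg, (∀ z ∈ Q, Bl v z ∧ |ξ1 v z| ≤ L ∧ |ξ2 v z| ≤ L) →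
      (1 - ε) ^ 2 * ∑ z ∈ Q, ρ z * Real.exp (T1 * ξ1 v z + ξ2 v z) ≤ αB) →
    False

/-- parameters for which the local game is won -/
structure PK2 (T1 T2 wR wB g0 dl B0 p1 p2 b1 b2 A W : ℝ) : Prop where
  hp1 : 1 / 5 < p1
  hp1' : p1 < 1
  hp2 : 1 / 5 < p2
  hp2' : p2 < 1
  hb1 : 0 < b1
  hb2 : 0 < b2
  hA : 0 ≤ A
  hW : 0 ≤ W
  hB1 : b1 * (1 - p1) ≤ B0 * p1
  hB2 : b2 * (1 - p2) ≤ B0 * p2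
  hwin : wR * Real.exp (-A + b1 * Real.log (1 / p1) + b2 * KK p2 T2)
    + wB * Real.exp (-W + b2 * Real.log (1 / p2) + b1 * KK p1 T1) + 2 * dl * C8c B0 < g0

/-- **The two-reservoir book theorem with asymmetric certificates.** -/
def TBookThm2 : Prop :=
  ∀ (T1 T2 wR wB g0 a1 a2 : ℝ) (P : List (ℝ × ℕ × ℕ)) (dl B0 p1 p2 b1 b2 A W : ℝ),
    Cert2 T1 T2 wR wB g0 a1 a2 P dl → PK2 T1 T2 wR wB g0 dl B0 p1 p2 b1 b2 A W →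
    TBook p1 p2 b1 b2 A W

end Pool.Agent.TH428.RM
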