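import Pool.Agent.TH428.RM.TBook2
import Pool.Agent.TH428.RM.C1
import Pool.Agent.TH428.RM.C2
import Pool.Agent.TH428.RM.Row0
import Pool.Agent.TH428.RM.Row1
import Pool.Agent.TH428.RM.Row2
import Pool.Agent.TH428.RM.Row3
import Pool.Agent.TH428.RM.Row4

set_option autoImplicit false

/-!
# The bound on two-coloured sets from the asymmetric two-reservoir book theorem
-/

namespace Pool.Agent.TH428.RM

open W478R H110R2 TH502.RM

lemma C8c_eight : C8c ((8 : ℕ) : ℝ) ≤ 11879600000 := by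
  have h : Real.exp ((8 : ℝ) / 25) ≤ 1.37713 := by
    have h2 := Real.exp_bound' (x := (8 : ℝ) / 25) (by norm_num) (by norm_num) (n := 8) (by norm_num)
    refine h2.trans ?_
    simp only [Finset.sum_range_succ, Finset.sum_range_zero, Nat.factorial]
    norm_num
  unfold C8c
  push_cast
  norm_num at h ⊢
  linarith

lemma cc1_ok : CCOK 1000000000 8 cc1 where
  hT10 := by decide
  hT1N := by decide
  hT20 := by decide
  hT2N := by decide
  hl1 := by decide +kernel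
  hl2 := by decide +kernel
  hcert := by
    have h := nc1_cert
    have e1 : ((nc1.T1 : ℕ) : ℝ) / (nc1.M : ℕ) = ((cc1.T1 : ℕ) : ℝ) / ((1000000000 : ℕ) : ℝ) := by
      norm_num [nc1, cc1]
    have e2 : ((nc1.T2 : ℕ) : ℝ) / (nc1.M : ℕ) = ((cc1.T2 : ℕ) : ℝ) / ((1000000000 : ℕ) : ℝ) := by
      norm_num [nc1, cc1]
    have e3 : ((nc1.wR : ℕ) : ℝ) / (nc1.wd : ℕ) = ((cc1.wR : ℕ) : ℝ) / ((1000000000 : ℕ) : ℝ) := by
      norm_num [nc1, cc1]
    have e4 : ((nc1.wB : ℕ) : ℝ) / (nc1.wd : ℕ) = ((cc1.wB : ℕ) : ℝ) / ((1000000000 : ℕ) : ℝ) := by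
      norm_num [nc1, cc1]
    rw [e1, e2, e3, e4] at h
    refine ⟨_, _, _, _, _, h, ?_⟩
    have h1 := C8c_eight
    have h2 : ((cc1.G : ℕ) : ℝ) / ((1000000000 : ℕ) : ℝ) ≤
        ((nc1.g0 : ℕ) : ℝ) / (nc1.K : ℕ) - 2 * (((nc1.dl : ℕ) : ℝ) / (nc1.K : ℕ)) * 11879600000 := by
      norm_num [nc1, cc1]
    refine h2.trans ?_
    have h3 : (0 : ℝ) ≤ 2 * (((nc1.dl : ℕ) : ℝ) / (nc1.K : ℕ)) := by positivity
    have h4 := mul_le_mul_of_nonneg_left h1 h3
    linarith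

lemma cc2_ok : CCOK 1000000000 8 cc2 where
  hT10 := by decide
  hT1N := by decide
  hT20 := by decide
  hT2N := by decide
  hl1 := by decide +kernel
  hl2 := by decide +kernel
  hcert := by
    have h := nc2_cert
    have e1 : ((nc2.T1 : ℕ) : ℝ) / (nc2.M : ℕ) = ((cc2.T1 : ℕ) : ℝ) / ((1000000000 : ℕ) : ℝ) := by
      norm_num [nc2, cc2]
    have e2 : ((nc2.T2 : ℕ) : ℝ) / (nc2.M : ℕ) = ((cc2.T2 : ℕ) : ℝ) / ((1000000000 : ℕ) : ℝ) := by
      norm_num [nc2, cc2]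
    have e3 : ((nc2.wR : ℕ) : ℝ) / (nc2.wd : ℕ) = ((cc2.wR : ℕ) : ℝ) / ((1000000000 : ℕ) : ℝ) := by
      norm_num [nc2, cc2]
    have e4 : ((nc2.wB : ℕ) : ℝ) / (nc2.wd : ℕ) = ((cc2.wB : ℕ) : ℝ) / ((1000000000 : ℕ) : ℝ) := by
      norm_num [nc2, cc2]
    rw [e1, e2, e3, e4] at h
    refine ⟨_, _, _, _, _, h, ?_⟩
    have h1 := C8c_eight
    have h2 : ((cc2.G : ℕ) : ℝ) / ((1000000000 : ℕ) : ℝ) ≤
        ((nc2.g0 : ℕ) : ℝ) / (nc2.K : ℕ) - 2 * (((nc2.dl : ℕ) : ℝ) / (nc2.K : ℕ)) * 11879600000 := by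
      norm_num [nc2, cc2]
    refine h2.trans ?_
    have h3 : (0 : ℝ) ≤ 2 * (((nc2.dl : ℕ) : ℝ) / (nc2.K : ℕ)) := by positivity
    have h4 := mul_le_mul_of_nonneg_left h1 h3
    linarith

lemma ccs_ok : ∀ c ∈ ccs, CCOK 1000000000 8 c := by
  intro c hc
  unfold ccs at hc
  simp only [List.mem_cons, List.not_mem_nil, or_false] at hc
  rcases hc with rfl | rfl
  · exact cc1_ok
  · exact cc2_ok

/-- the rows -/
def rows : List GRow2 :=
  [row0, row1, row2, row3, row4, row5, row6, row7, row8, row9, row10, row11, row12, row13, row14,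
    row15, row16, row17, row18, row19, row20]

lemma rows_L : rows.map GRow2.L = newL := by
  decide +kernel

theorem bound : ∃ C : ℝ, 1 ≤ C ∧ ∀ k l : ℕ, BdAt ((Old ++ newL).map (rl 1000000000)) C k l := by
  obtain ⟨C0, -, h0⟩ := old_bd
  refine cert_bound4 (by norm_num) tbook2 ccs_ok Old (Old ++ newL) rows C0 (by rw [rows_L]) h0 ?_ ?_ ?_
  · unfold Old
    decide +kernel
  · unfold rows
    simp
  · intro r hr
    unfold rows at hr
    simp only [List.mem_cons, List.not_mem_nil, or_false] at hr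
    rcases hr with rfl | rfl | rfl | rfl | rfl | rfl | rfl | rfl | rfl | rfl | rfl | rfl | rfl |
      rfl | rfl | rfl | rfl | rfl | rfl | rfl | rfl
    exacts [ok0, ok1, ok2, ok3, ok4, ok5, ok6, ok7, ok8, ok9, ok10, ok11, ok12, ok13, ok14, ok15,
      ok16, ok17, ok18, ok19, ok20]

theorem mem_last : ((566729032, 572024422) : ℕ × ℕ) ∈ Old ++ newL := by
  decide +kernel

end Pool.Agent.TH428.RM
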