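import Pool.Agent.TH502.RM.GCheck2
import Pool.Agent.W478R.Old

set_option autoImplicit false

/-!
# New lines and constants of the two certificates
-/

namespace Pool.Agent.TH428.RM

open W478R H110R2 TH502.RM

/-- constants of the symmetric certificate -/
def cc1 : CC := ⟨315000000, 315000000, 378336440, 378336440, 1000000000, 1000000000, 848746940⟩

/-- constants of the asymmetric certificate -/
def cc2 : CC := ⟨180000000, 250000000, 198450938, 287682072, 780000000, 1280000000, 710081150⟩

/-- the certificates -/
def ccs : List CC := [cc1, cc2]

/-- the new lines -/
def newL : List (ℕ × ℕ) := [
  (254811442, 1172108738),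
  (270979166, 1115379881),
  (286100850, 1067752531),
  (299811705, 1028578659),
  (314865394, 989222609),
  (331182987, 949903108),
  (343717149, 921893806),
  (367038184, 873308318),
  (405808216, 797659475),
  (438463483, 741113557),
  (447120136, 726922323),
  (470431201, 690640510),
  (473223081, 686504391),
  (495160939, 655496818),
  (496913510, 653128479),
  (516178603, 628189847),
  (527181175, 615052411),
  (537705169, 602955866),
  (545707651, 594088849),
  (555085056, 584059540),
  (566729032, 572024422)]

/-- the old lines -/
def Old : List (ℕ × ℕ) := Pool.Agent.H111R2.clX

end Pool.Agent.TH428.RM
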