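import Pool.Agent.TH428.RM.QTProof3

set_option autoImplicit false

/-!
# Certificates from four quadrants and a tail bound
-/

namespace Pool.Agent.TH428.RM

/-- natural number data of a certificate: coefficients over `K`, tilts over `M`, weights over
`wd`, box `[-2 R, 2 R] ^ 2`, grid `1 / D` -/
structure NC where
  K : ℕ
  D : ℕ
  M : ℕ
  R : ℕ
  g0 : ℕ
  a1 : ℕ
  a2 : ℕ
  dl : ℕ
  wd : ℕ
  wR : ℕ
  wB : ℕ
  T1 : ℕ
  T2 : ℕ
  P : List (ℕ × ℕ × ℕ)

/-- all monomials except the two of degree eight -/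
def NC.A (c : NC) : List (ℕ × ℕ × ℕ) := (c.g0, 0, 0) :: (c.a1, 1, 0) :: (c.a2, 0, 1) :: c.P

/-- `true` if the monomial is negative in the quadrant -/
def sg (sx sy : Bool) (m : ℕ × ℕ × ℕ) : Bool :=
  xor (sx && (m.2.1 % 2 == 1)) (sy && (m.2.2 % 2 == 1))

/-- data of a quadrant -/
def mkq (c : NC) (sx sy : Bool) : QD where
  K := c.K
  D := c.D
  M := c.M
  pos := c.A.filter (fun m => !sg sx sy m)
  neg := (c.dl, 8, 0) :: (c.dl, 0, 8) :: c.A.filter (sg sx sy)
  e1 := ⟨c.wR, c.wd, bif sx then 0 else c.M, bif sx then c.M else 0,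
    bif sy then 0 else c.T2, bif sy then c.T2 else 0⟩
  e2 := ⟨c.wB, c.wd, bif sx then 0 else c.T1, bif sx then c.T1 else 0,
    bif sy then 0 else c.M, bif sy then c.M else 0⟩

/-- sign -/
noncomputable def sgn (s : Bool) : ℝ := bif s then -1 else 1

lemma sgn_pow (s : Bool) (i : ℕ) : sgn s ^ i = sgn (s && (i % 2 == 1)) := by
  cases s
  · simp [sgn]
  · rcases Nat.even_or_odd i with h | h
    · have h1 : i % 2 = 0 := Nat.even_iff.mp h
      simp [sgn, h.neg_one_pow, h1]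
    · have h1 : i % 2 = 1 := Nat.odd_iff.mp h
      simp [sgn, h.neg_one_pow, h1]

lemma sgn_xor (a b : Bool) : sgn (xor a b) = sgn a * sgn b := by
  cases a <;> cases b <;> simp [sgn]

lemma rv_cons (m : ℕ × ℕ × ℕ) (L : List (ℕ × ℕ × ℕ)) (x y : ℝ) :
    rv (m :: L) x y = (m.1 : ℝ) * (x ^ m.2.1 * y ^ m.2.2) + rv L x y := by
  simp [rv]

lemma rv_filter (sx sy : Bool) (L : List (ℕ × ℕ × ℕ)) (a b : ℝ) :
    rv (L.filter (fun m => !sg sx sy m)) a b - rv (L.filter (sg sx sy)) a b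
      = rv L (sgn sx * a) (sgn sy * b) := by
  induction L with
  | nil => simp [rv]
  | cons m L ih =>
    rw [rv_cons, ← ih]
    have h1 : (sgn sx * a) ^ m.2.1 * (sgn sy * b) ^ m.2.2
        = sgn (sg sx sy m) * (a ^ m.2.1 * b ^ m.2.2) := by
      unfold sg
      rw [sgn_xor, ← sgn_pow, ← sgn_pow, mul_pow, mul_pow]
      ring
    rw [h1]
    cases h2 : sg sx sy m
    · rw [List.filter_cons_of_pos (by simp [h2]), List.filter_cons_of_neg (by simp [h2]), rv_cons]
      simp only [sgn, cond_false]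
      ring
    · rw [List.filter_cons_of_neg (by simp [h2]), List.filter_cons_of_pos (by simp [h2]), rv_cons]
      simp only [sgn, cond_true]
      ring

/-- the real monomials -/
noncomputable def NC.rP (c : NC) : List (ℝ × ℕ × ℕ) :=
  c.P.map (fun m => ((m.1 : ℝ) / c.K, m.2.1, m.2.2))

lemma ev_rP (c : NC) (x y : ℝ) : ev c.rP x y = rv c.P x y / c.K := by
  unfold NC.rP ev rv
  induction c.P with
  | nil => simp
  | cons m L ih =>
    simp only [List.map_cons, List.sum_cons, ih, add_div]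
    ring

lemma G2_eq {c : NC} (hK : 0 < c.K) (x y : ℝ) :
    (c.K : ℝ) * G2 ((c.g0 : ℝ) / c.K) ((c.a1 : ℝ) / c.K) ((c.a2 : ℝ) / c.K) c.rP ((c.dl : ℝ) / c.K) x y
      = rv c.A x y - c.dl * (x ^ 8 + y ^ 8) := by
  have hK' : (0 : ℝ) < c.K := by exact_mod_cast hK
  unfold G2 NC.A
  rw [ev_rP, rv_cons, rv_cons, rv_cons]
  field_simp
  ring

lemma G2_quad {c : NC} (hK : 0 < c.K) (sx sy : Bool) (a b : ℝ) :
    ff (mkq c sx sy) a b = (c.K : ℝ) * G2 ((c.g0 : ℝ) / c.K) ((c.a1 : ℝ) / c.K) ((c.a2 : ℝ) / c.K)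
      c.rP ((c.dl : ℝ) / c.K) (sgn sx * a) (sgn sy * b) := by
  rw [G2_eq hK, ← rv_filter]
  unfold ff mkq
  simp only
  rw [rv_cons, rv_cons]
  have h1 : ∀ s : Bool, sgn s ^ 8 = 1 := by intro s; cases s <;> norm_num [sgn]
  rw [mul_pow, mul_pow, h1, h1]
  ring

lemma ee1_quad {c : NC} (hM : 0 < c.M) (sx sy : Bool) (a b : ℝ) :
    ee (mkq c sx sy) (mkq c sx sy).e1 a b = (c.K : ℝ) * (((c.wR : ℝ) / c.wd) *
      Real.exp (sgn sx * a + (c.T2 : ℝ) / c.M * (sgn sy * b))) := by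
  have hM' : (0 : ℝ) < c.M := by exact_mod_cast hM
  unfold ee mkq
  simp only
  rw [mul_assoc]
  congr 3
  cases sx <;> cases sy <;> simp [sgn] <;> field_simp

lemma ee2_quad {c : NC} (hM : 0 < c.M) (sx sy : Bool) (a b : ℝ) :
    ee (mkq c sx sy) (mkq c sx sy).e2 a b = (c.K : ℝ) * (((c.wB : ℝ) / c.wd) *
      Real.exp ((c.T1 : ℝ) / c.M * (sgn sx * a) + sgn sy * b)) := by
  have hM' : (0 : ℝ) < c.M := by exact_mod_cast hM
  unfold ee mkq
  simp only
  rw [mul_assoc]
  congr 3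
  cases sx <;> cases sy <;> simp [sgn] <;> field_simp

/-- arithmetic side conditions, including the tail bound -/
def NC.ok (c : NC) : Bool :=
  decide (0 < c.K) && decide (0 < c.D) && decide (0 < c.M) && decide (0 < c.R) && decide (0 < c.wd) &&
  decide (0 < c.T1) && decide (c.T1 < c.M) && decide (0 < c.T2) && decide (c.T2 < c.M) &&
  c.P.all (fun m => decide (m.2.1 + m.2.2 ≤ 7)) &&
  decide ((c.A.map (fun m => m.1 * (2 * c.R) ^ (m.2.1 + m.2.2))).sum ≤ c.dl * (2 * c.R) ^ 8)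

lemma tail_term {m R : ℝ} (hR : 0 < R) (hm : R ≤ m) {d : ℕ} (hd : d ≤ 8) :
    m ^ d * R ^ 8 ≤ m ^ 8 * R ^ d := by
  obtain ⟨k, hk⟩ : ∃ k, d + k = 8 := ⟨8 - d, by omega⟩
  have e1 : m ^ 8 = m ^ d * m ^ k := by rw [← pow_add, hk]
  have e2 : R ^ 8 = R ^ d * R ^ k := by rw [← pow_add, hk]
  rw [e1, e2]
  have h1 : R ^ k ≤ m ^ k := pow_le_pow_left₀ hR.le hm k
  have h2 : 0 ≤ m ^ d * R ^ d := by have := hR.trans_le hm; positivity
  nlinarith

lemma rv_le_max (L : List (ℕ × ℕ × ℕ)) (hL : POK8 L) {x y m R : ℝ} (hR : 0 < R) (hm : R ≤ m)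
    (hx : |x| ≤ m) (hy : |y| ≤ m) :
    rv L x y * R ^ 8 ≤ m ^ 8 * (L.map (fun k => (k.1 : ℝ) * R ^ (k.2.1 + k.2.2))).sum := by
  induction L with
  | nil => simp [rv]
  | cons k L ih =>
    obtain ⟨h1, h2⟩ := hL.cons
    rw [rv_cons]
    simp only [List.map_cons, List.sum_cons]
    have hm0 : 0 ≤ m := hR.le.trans hm
    have h3 : x ^ k.2.1 * y ^ k.2.2 ≤ m ^ (k.2.1 + k.2.2) := by
      refine (le_abs_self _).trans ?_
      rw [abs_mul, abs_pow, abs_pow, pow_add]
      exact mul_le_mul (pow_le_pow_left₀ (abs_nonneg _) hx _) (pow_le_pow_left₀ (abs_nonneg _) hy _)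
        (by positivity) (by positivity)
    have h4 := tail_term hR hm h1
    have h5 : x ^ k.2.1 * y ^ k.2.2 * R ^ 8 ≤ m ^ 8 * R ^ (k.2.1 + k.2.2) :=
      (mul_le_mul_of_nonneg_right h3 (by positivity)).trans h4
    have h6 := mul_le_mul_of_nonneg_left h5 (Nat.cast_nonneg (α := ℝ) k.1)
    have h7 := ih h2
    nlinarith

theorem cert_of {c : NC} (hok : c.ok = true) {n : ℕ}
    (h00 : qchk (mkq c false false) n (c.R * c.D) (c.R * c.D) (c.R * c.D) = true)
    (h01 : qchk (mkq c false true) n (c.R * c.D) (c.R * c.D) (c.R * c.D) = true)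
    (h10 : qchk (mkq c true false) n (c.R * c.D) (c.R * c.D) (c.R * c.D) = true)
    (h11 : qchk (mkq c true true) n (c.R * c.D) (c.R * c.D) (c.R * c.D) = true) :
    Cert2 ((c.T1 : ℝ) / c.M) ((c.T2 : ℝ) / c.M) ((c.wR : ℝ) / c.wd) ((c.wB : ℝ) / c.wd)
      ((c.g0 : ℝ) / c.K) ((c.a1 : ℝ) / c.K) ((c.a2 : ℝ) / c.K) c.rP ((c.dl : ℝ) / c.K) := by
  unfold NC.ok at hok
  simp only [Bool.and_eq_true, decide_eq_true_eq] at hok
  obtain ⟨⟨⟨⟨⟨⟨⟨⟨⟨⟨hK, hD⟩, hM⟩, hR⟩, hwd⟩, hT1⟩, hT1'⟩, hT2⟩, hT2'⟩, hP⟩, htail⟩ := hok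
  have hP' : ∀ m ∈ c.P, m.2.1 + m.2.2 ≤ 7 := by
    intro m hm
    have := List.all_eq_true.mp hP m hm
    simpa using this
  have hA : POK8 c.A := by
    intro m hm
    unfold NC.A at hm
    simp only [List.mem_cons] at hm
    rcases hm with rfl | rfl | rfl | hm
    · simp
    · simp
    · simp
    · have := hP' m hm
      omega
  have hK' : (0 : ℝ) < c.K := by exact_mod_cast hK
  have hM' : (0 : ℝ) < c.M := by exact_mod_cast hM
  have hwd' : (0 : ℝ) < c.wd := by exact_mod_cast hwd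
  have hR' : (0 : ℝ) < c.R := by exact_mod_cast hR
  have hq : ∀ sx sy : Bool, QOK (mkq c sx sy) := by
    intro sx sy
    refine ⟨hD, hM, hwd, hwd, ?_, ?_⟩
    · intro m hm
      exact hA m (List.mem_filter.mp hm).1
    · intro m hm
      unfold mkq at hm
      simp only [List.mem_cons] at hm
      rcases hm with rfl | rfl | hm
      · simp
      · simp
      · exact hA m (List.mem_filter.mp hm).1
  have hquad : ∀ sx sy : Bool, qchk (mkq c sx sy) n (c.R * c.D) (c.R * c.D) (c.R * c.D) = true := by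
    intro sx sy
    cases sx <;> cases sy
    · exact h00
    · exact h01
    · exact h10
    · exact h11
  -- the main inequality
  have hmain : ∀ x y : ℝ, G2 ((c.g0 : ℝ) / c.K) ((c.a1 : ℝ) / c.K) ((c.a2 : ℝ) / c.K) c.rP
      ((c.dl : ℝ) / c.K) x y ≤ ((c.wR : ℝ) / c.wd) * Real.exp (x + (c.T2 : ℝ) / c.M * y) ∧
      G2 ((c.g0 : ℝ) / c.K) ((c.a1 : ℝ) / c.K) ((c.a2 : ℝ) / c.K) c.rP
      ((c.dl : ℝ) / c.K) x y ≤ ((c.wB : ℝ) / c.wd) * Real.exp ((c.T1 : ℝ) / c.M * x + y) := by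
    intro x y
    rcases le_or_gt (max |x| |y|) (2 * (c.R : ℝ)) with hin | hout
    · have hx := (le_max_left _ _).trans hin
      have hy := (le_max_right _ _).trans hin
      obtain ⟨sx, hsx⟩ : ∃ s : Bool, x = sgn s * |x| := by
        rcases le_total 0 x with h | h
        · exact ⟨false, by simp [sgn, abs_of_nonneg h]⟩
        · exact ⟨true, by simp [sgn, abs_of_nonpos h]⟩
      obtain ⟨sy, hsy⟩ : ∃ s : Bool, y = sgn s * |y| := by
        rcases le_total 0 y with h | h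
        · exact ⟨false, by simp [sgn, abs_of_nonneg h]⟩
        · exact ⟨true, by simp [sgn, abs_of_nonpos h]⟩
      have h := quad_sound (hq sx sy) (n := n) (R := c.R) (hquad sx sy) (abs_nonneg x) hx
        (abs_nonneg y) hy
      rw [G2_quad hK, ee1_quad hM, ee2_quad hM, ← hsx, ← hsy] at h
      exact ⟨le_of_mul_le_mul_left h.1 hK', le_of_mul_le_mul_left h.2 hK'⟩
    · have hneg : G2 ((c.g0 : ℝ) / c.K) ((c.a1 : ℝ) / c.K) ((c.a2 : ℝ) / c.K) c.rP
          ((c.dl : ℝ) / c.K) x y ≤ 0 := by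
        have h1 := rv_le_max c.A hA (x := x) (y := y) (m := max |x| |y|) (R := 2 * (c.R : ℝ))
          (by positivity) hout.le (le_max_left _ _) (le_max_right _ _)
        have h2 : (c.A.map (fun k => (k.1 : ℝ) * (2 * (c.R : ℝ)) ^ (k.2.1 + k.2.2))).sum
            ≤ c.dl * (2 * (c.R : ℝ)) ^ 8 := by
          have h3 : (((c.A.map (fun m => m.1 * (2 * c.R) ^ (m.2.1 + m.2.2))).sum : ℕ) : ℝ)
              ≤ ((c.dl * (2 * c.R) ^ 8 : ℕ) : ℝ) := by exact_mod_cast htail
          rw [Nat.cast_list_sum, List.map_map] at h3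
          push_cast at h3
          refine le_trans (le_of_eq ?_) h3
          congr 1
          apply List.map_congr_left
          intro m _
          simp
        have h4 : (max |x| |y|) ^ 8 ≤ x ^ 8 + y ^ 8 := by
          have ex : |x| ^ 8 = x ^ 8 := Even.pow_abs (by decide) x
          have ey : |y| ^ 8 = y ^ 8 := Even.pow_abs (by decide) y
          rcases max_cases |x| |y| with ⟨h, _⟩ | ⟨h, _⟩
          · rw [h, ex]; have : 0 ≤ y ^ 8 := by positivity
            linarith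
          · rw [h, ey]; have : 0 ≤ x ^ 8 := by positivity
            linarith
        have h5 : (max |x| |y|) ^ 8 * (c.A.map (fun k => (k.1 : ℝ)
            * (2 * (c.R : ℝ)) ^ (k.2.1 + k.2.2))).sum
            ≤ (x ^ 8 + y ^ 8) * (c.dl * (2 * (c.R : ℝ)) ^ 8) :=
          mul_le_mul h4 h2 (List.sum_nonneg (by
            intro z hz
            obtain ⟨k, _, rfl⟩ := List.mem_map.mp hz
            positivity)) (by positivity)
        have h6 : (rv c.A x y - c.dl * (x ^ 8 + y ^ 8)) * (2 * (c.R : ℝ)) ^ 8 ≤ 0 := by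
          linarith
        have h7 : rv c.A x y - c.dl * (x ^ 8 + y ^ 8) ≤ 0 := by
          by_contra hcon
          push Not at hcon
          have : 0 < (rv c.A x y - c.dl * (x ^ 8 + y ^ 8)) * (2 * (c.R : ℝ)) ^ 8 := by positivity
          linarith
        rw [← G2_eq hK] at h7
        by_contra hcon
        push Not at hcon
        have := mul_pos hK' hcon
        linarith
      exact ⟨hneg.trans (by positivity), hneg.trans (by positivity)⟩
  refine ⟨by positivity, ?_, by positivity, ?_, by positivity, by positivity, by positivity,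
    by positivity, by positivity, ?_, by positivity, fun x y => (hmain x y).1,
    fun x y => (hmain x y).2⟩
  · rw [div_lt_one hM']; exact_mod_cast hT1'
  · rw [div_lt_one hM']; exact_mod_cast hT2'
  · intro m hm
    unfold NC.rP at hm
    obtain ⟨k, hk, rfl⟩ := List.mem_map.mp hm
    exact ⟨by positivity, hP' k hk⟩

end Pool.Agent.TH428.RM
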