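import Pool.Agent.TH428.RM.Defs

set_option autoImplicit false

/-!
# A kernel checker for polynomial below exponential on a box (definitions)

All quantities are natural numbers; coordinates of one quadrant are in units `1 / D`. The functions
are written with the raw operations on natural numbers, which the kernel evaluates directly.
-/

namespace Pool.Agent.TH428.RM

/-- scaled value of a monomial list -/
def nv (D : ℕ) (L : List (ℕ × ℕ × ℕ)) (X Y : ℕ) : ℕ :=
  List.rec 0 (fun m _ r => Nat.add (Nat.mul m.1 (Nat.mul (Nat.mul (Nat.pow X m.2.1) (Nat.pow Y m.2.2))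
    (Nat.pow D (Nat.sub 8 (Nat.add m.2.1 m.2.2))))) r) L

/-- scaled derivative in the first variable times `H` -/
def nx (D : ℕ) (L : List (ℕ × ℕ × ℕ)) (X Y H : ℕ) : ℕ :=
  List.rec 0 (fun m _ r => Nat.add (Nat.mul m.1 (Nat.mul (Nat.mul (Nat.mul (Nat.mul m.2.1
    (Nat.pow X (Nat.sub m.2.1 1))) H) (Nat.pow Y m.2.2))
    (Nat.pow D (Nat.sub 8 (Nat.add m.2.1 m.2.2))))) r) L

/-- scaled derivative in the second variable times `H` -/
def ny (D : ℕ) (L : List (ℕ × ℕ × ℕ)) (X Y H : ℕ) : ℕ :=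
  List.rec 0 (fun m _ r => Nat.add (Nat.mul m.1 (Nat.mul (Nat.mul (Nat.mul (Nat.mul m.2.2
    (Nat.pow Y (Nat.sub m.2.2 1))) H) (Nat.pow X m.2.1))
    (Nat.pow D (Nat.sub 8 (Nat.add m.2.1 m.2.2))))) r) L

/-- repeated squaring in fixed point arithmetic, rounded down -/
def sqn (S : ℕ) (n : ℕ) : ℕ → ℕ :=
  Nat.rec (fun y => y) (fun _ f y => f (Nat.div (Nat.mul y y) S)) n

/-- conjunction, left to right -/
def band (a : Bool) (b : Bool) : Bool :=
  match a with
  | true => b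
  | false => false

/-- disjunction, left to right -/
def bor (a : Bool) (b : Bool) : Bool :=
  match a with
  | true => true
  | false => b

/-- distance -/
def nd (a b : ℕ) : ℕ := Nat.add (Nat.sub a b) (Nat.sub b a)

/-- third order Taylor polynomial of `exp (t / Q)` times `S`, rounded down -/
def tayp (S Q t : ℕ) : ℕ :=
  Nat.div (Nat.mul S (Nat.add (Nat.add (Nat.mul 6 (Nat.pow Q 3)) (Nat.mul (Nat.mul 6 (Nat.pow Q 2)) t))
    (Nat.add (Nat.mul (Nat.mul 3 Q) (Nat.pow t 2)) (Nat.pow t 3)))) (Nat.mul 6 (Nat.pow Q 3))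

/-- third order Taylor polynomial of `exp (- t / Q)` times `S`, rounded down -/
def tayn (S Q t : ℕ) : ℕ :=
  Nat.div (Nat.mul S (Nat.sub (Nat.add (Nat.mul 6 (Nat.pow Q 3)) (Nat.mul (Nat.mul 3 Q) (Nat.pow t 2)))
    (Nat.add (Nat.mul (Nat.mul 6 (Nat.pow Q 2)) t) (Nat.pow t 3)))) (Nat.mul 6 (Nat.pow Q 3))

/-- a lower bound for `S exp ((p - n) / q)` -/
def elow (S q p n : ℕ) : ℕ :=
  match Nat.ble n p with
  | true =>
    match Nat.ble (Nat.sub p n) (Nat.mul 40 q) with
    | true => sqn S 9 (tayp S (Nat.mul 512 q) (Nat.sub p n))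
    | false => sqn S 9 (tayp S (Nat.mul 512 q) (Nat.mul 40 q))
  | false =>
    match Nat.ble (Nat.sub n p) (Nat.mul 40 q) with
    | true => sqn S 9 (tayn S (Nat.mul 512 q) (Nat.sub n p))
    | false => 0

/-- data of an exponential `(w / wd) exp (((ap - an) a + (bp - bn) b) / M)` -/
structure ED where
  w : ℕ
  wd : ℕ
  ap : ℕ
  an : ℕ
  bp : ℕ
  bn : ℕ

/-- data of a quadrant problem -/
structure QD where
  K : ℕ
  D : ℕ
  M : ℕ
  pos : List (ℕ × ℕ × ℕ)
  neg : List (ℕ × ℕ × ℕ)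
  e1 : ED
  e2 : ED

/-- scale of the exponentials -/
def SS0 : ℕ := 1152921504606846976

/-- lower bound for the exponential at the point with offset `o`, in units `1 / (K D ^ 8)` -/
def elo (q : QD) (e : ED) (X Y o : ℕ) : ℕ :=
  Nat.div (Nat.mul (Nat.mul (Nat.mul e.w q.K) (Nat.pow q.D 8))
    (elow SS0 (Nat.mul q.D q.M) (Nat.add (Nat.mul e.ap X) (Nat.mul e.bp Y))
      (Nat.add (Nat.add (Nat.mul e.an X) (Nat.mul e.bn Y)) o))) (Nat.mul SS0 e.wd)

/-- tangent test; `v = value + remainder` (positive part), `vn` negative part, `E` lower bound of the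
exponential at the centre -/
def tchk (q : QD) (e : ED) (H v vn gxp gxn gyp gyn E : ℕ) : Bool :=
  Nat.ble (Nat.add (Nat.add (Nat.mul (Nat.mul q.D q.M) v)
    (nd (Nat.add (Nat.mul (Nat.mul H e.ap) E) (Nat.mul (Nat.mul q.D q.M) gxn))
      (Nat.add (Nat.mul (Nat.mul H e.an) E) (Nat.mul (Nat.mul q.D q.M) gxp))))
    (nd (Nat.add (Nat.mul (Nat.mul H e.bp) E) (Nat.mul (Nat.mul q.D q.M) gyn))
      (Nat.add (Nat.mul (Nat.mul H e.bn) E) (Nat.mul (Nat.mul q.D q.M) gyp))))
    (Nat.mul (Nat.mul q.D q.M) (Nat.add vn E))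

/-- corner test -/
def cchk (q : QD) (e : ED) (X Y H vn up : ℕ) : Bool :=
  Nat.ble up (Nat.add vn (elo q e X Y (Nat.mul H (Nat.add (Nat.add e.ap e.an) (Nat.add e.bp e.bn)))))

/-- the test of one exponential; `up` is an upper bound of the positive part -/
def echk (q : QD) (e : ED) (X Y H v vn gxp gxn gyp gyn up : ℕ) : Bool :=
  bor (tchk q e H v vn gxp gxn gyp gyn (elo q e X Y 0)) (cchk q e X Y H vn up)

/-- last stage of the test of a box -/
def lchk3 (q : QD) (X Y H v vn gxp gxn gyp gyn up : ℕ) : Bool :=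
  bor (Nat.ble up vn) (band (echk q q.e1 X Y H v vn gxp gxn gyp gyn up)
    (echk q q.e2 X Y H v vn gxp gxn gyp gyn up))

/-- second stage of the test of a box -/
def lchk2 (q : QD) (X Y H hi vp vn gxp gxn gyp gyn : ℕ) : Bool :=
  lchk3 q X Y H (Nat.add vp (Nat.sub hi (Nat.add (Nat.add vp vn)
    (Nat.add (Nat.add gxp gxn) (Nat.add gyp gyn))))) vn gxp gxn gyp gyn
    (Nat.add (Nat.add (Nat.add vp (Nat.sub hi (Nat.add (Nat.add vp vn)
      (Nat.add (Nat.add gxp gxn) (Nat.add gyp gyn))))) (nd gxp gxn)) (nd gyp gyn))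

/-- the test of a box with centre `(X, Y)` and half side `H` -/
def leafchk (q : QD) (X Y H : ℕ) : Bool :=
  lchk2 q X Y H (Nat.add (nv q.D q.pos (Nat.add X H) (Nat.add Y H))
      (nv q.D q.neg (Nat.add X H) (Nat.add Y H)))
    (nv q.D q.pos X Y) (nv q.D q.neg X Y) (nx q.D q.pos X Y H) (nx q.D q.neg X Y H)
    (ny q.D q.pos X Y H) (ny q.D q.neg X Y H)

/-- the quadtree -/
def qchk (q : QD) (n : ℕ) : ℕ → ℕ → ℕ → Bool :=
  Nat.rec (fun X Y H => leafchk q X Y H)
    (fun _ f X Y H => bor (leafchk q X Y H)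
      (band (Nat.beq (Nat.mul 2 (Nat.div H 2)) H)
        (band (f (Nat.sub X (Nat.div H 2)) (Nat.sub Y (Nat.div H 2)) (Nat.div H 2))
          (band (f (Nat.sub X (Nat.div H 2)) (Nat.add Y (Nat.div H 2)) (Nat.div H 2))
            (band (f (Nat.add X (Nat.div H 2)) (Nat.sub Y (Nat.div H 2)) (Nat.div H 2))
              (f (Nat.add X (Nat.div H 2)) (Nat.add Y (Nat.div H 2)) (Nat.div H 2))))))) n

end Pool.Agent.TH428.RM
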