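import Pool.Agent.TH428.RM.QT

set_option autoImplicit false

/-!
# Soundness of the quadtree checker
-/

namespace Pool.Agent.TH428.RM

/-! ### Remainders -/

lemma cast_pow_pred (i : ℕ) (x : ℝ) : (i : ℝ) * x ^ (i - 1) * x = i * x ^ i := by
  cases i with
  | zero => simp
  | succ n => rw [Nat.add_sub_cancel, pow_succ]; ring

lemma pow_rem (i : ℕ) {x h d : ℝ} (hx : 0 ≤ x) (hd : |d| ≤ h) :
    |(x + d) ^ i - x ^ i - i * x ^ (i - 1) * d| ≤ (x + h) ^ i - x ^ i - i * x ^ (i - 1) * h := by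
  have hh : 0 ≤ h := (abs_nonneg d).trans hd
  induction i with
  | zero => simp
  | succ i ih =>
    have key : ∀ s : ℝ, (x + s) ^ (i + 1) - x ^ (i + 1) - ((i + 1 : ℕ) : ℝ) * x ^ (i + 1 - 1) * s
        = (x + s) * ((x + s) ^ i - x ^ i - i * x ^ (i - 1) * s) + i * x ^ (i - 1) * s ^ 2 := by
      intro s
      have h1 := cast_pow_pred i x
      rw [Nat.add_sub_cancel]
      push_cast
      linear_combination s * h1
    rw [key d, key h]
    have h1 : |x + d| ≤ x + h := by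
      refine (abs_add_le _ _).trans ?_
      rw [abs_of_nonneg hx]
      linarith
    have h2 : |(x + d) * ((x + d) ^ i - x ^ i - i * x ^ (i - 1) * d)| ≤
        (x + h) * ((x + h) ^ i - x ^ i - i * x ^ (i - 1) * h) := by
      rw [abs_mul]
      exact mul_le_mul h1 ih (abs_nonneg _) (by linarith)
    have h3 : |(i : ℝ) * x ^ (i - 1) * d ^ 2| ≤ i * x ^ (i - 1) * h ^ 2 := by
      rw [abs_of_nonneg (by positivity)]
      have : d ^ 2 ≤ h ^ 2 := by
        rw [← sq_abs d]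
        exact pow_le_pow_left₀ (abs_nonneg d) hd 2
      exact mul_le_mul_of_nonneg_left this (by positivity)
    exact (abs_add_le _ _).trans (add_le_add h2 h3)

lemma prod_rem {A A' B B' d e h R S R' S' : ℝ} (hA : 0 ≤ A) (hA' : 0 ≤ A') (hB : 0 ≤ B)
    (hB' : 0 ≤ B') (hd : |d| ≤ h) (he : |e| ≤ h) (hR : |R| ≤ R') (hS : |S| ≤ S') :
    |(A + A' * d + R) * (B + B' * e + S) - A * B - A' * B * d - A * B' * e| ≤
      (A + A' * h + R') * (B + B' * h + S') - A * B - A' * B * h - A * B' * h := by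
  have hh : 0 ≤ h := (abs_nonneg d).trans hd
  have hR0 : 0 ≤ R' := (abs_nonneg R).trans hR
  have hS0 : 0 ≤ S' := (abs_nonneg S).trans hS
  have e1 : (A + A' * d + R) * (B + B' * e + S) - A * B - A' * B * d - A * B' * e
      = (A' * d) * (B' * e) + A * S + R * B + (A' * d) * S + R * (B' * e) + R * S := by ring
  have e2 : (A + A' * h + R') * (B + B' * h + S') - A * B - A' * B * h - A * B' * h
      = (A' * h) * (B' * h) + A * S' + R' * B + (A' * h) * S' + R' * (B' * h) + R' * S' := by ring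
  rw [e1, e2]
  have a1 : |A' * d| ≤ A' * h := by
    rw [abs_mul, abs_of_nonneg hA']
    exact mul_le_mul_of_nonneg_left hd hA'
  have a2 : |B' * e| ≤ B' * h := by
    rw [abs_mul, abs_of_nonneg hB']
    exact mul_le_mul_of_nonneg_left he hB'
  have a3 : |A' * d * (B' * e)| ≤ A' * h * (B' * h) := by
    rw [abs_mul]; exact mul_le_mul a1 a2 (abs_nonneg _) (by positivity)
  have a4 : |A * S| ≤ A * S' := by
    rw [abs_mul, abs_of_nonneg hA]
    exact mul_le_mul_of_nonneg_left hS hA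
  have a5 : |R * B| ≤ R' * B := by
    rw [abs_mul, abs_of_nonneg hB]
    exact mul_le_mul_of_nonneg_right hR hB
  have a6 : |A' * d * S| ≤ A' * h * S' := by
    rw [abs_mul]; exact mul_le_mul a1 hS (abs_nonneg _) (by positivity)
  have a7 : |R * (B' * e)| ≤ R' * (B' * h) := by
    rw [abs_mul]; exact mul_le_mul hR a2 (abs_nonneg _) hR0
  have a8 : |R * S| ≤ R' * S' := by
    rw [abs_mul]; exact mul_le_mul hR hS (abs_nonneg _) hR0
  refine (abs_add_le _ _).trans (add_le_add ?_ a8)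
  refine (abs_add_le _ _).trans (add_le_add ?_ a7)
  refine (abs_add_le _ _).trans (add_le_add ?_ a6)
  refine (abs_add_le _ _).trans (add_le_add ?_ a5)
  exact (abs_add_le _ _).trans (add_le_add a3 a4)

/-- value of a list of monomials with natural coefficients -/
noncomputable def rv (L : List (ℕ × ℕ × ℕ)) (x y : ℝ) : ℝ :=
  (L.map (fun m => (m.1 : ℝ) * (x ^ m.2.1 * y ^ m.2.2))).sum

/-- first partial derivative -/
noncomputable def rx (L : List (ℕ × ℕ × ℕ)) (x y : ℝ) : ℝ :=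
  (L.map (fun m => (m.1 : ℝ) * ((m.2.1 : ℝ) * x ^ (m.2.1 - 1) * y ^ m.2.2))).sum

/-- second partial derivative -/
noncomputable def ry (L : List (ℕ × ℕ × ℕ)) (x y : ℝ) : ℝ :=
  (L.map (fun m => (m.1 : ℝ) * ((m.2.2 : ℝ) * y ^ (m.2.2 - 1) * x ^ m.2.1))).sum

lemma mono_rem (i j : ℕ) {x y h d e : ℝ} (hx : 0 ≤ x) (hy : 0 ≤ y) (hd : |d| ≤ h)
    (he : |e| ≤ h) :
    |(x + d) ^ i * (y + e) ^ j - x ^ i * y ^ j - (i * x ^ (i - 1) * y ^ j) * d
        - (j * y ^ (j - 1) * x ^ i) * e| ≤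
      (x + h) ^ i * (y + h) ^ j - x ^ i * y ^ j - (i * x ^ (i - 1) * y ^ j) * h
        - (j * y ^ (j - 1) * x ^ i) * h := by
  have h1 := pow_rem i hx hd
  have h2 := pow_rem j hy he
  have h3 := prod_rem (A := x ^ i) (A' := i * x ^ (i - 1)) (B := y ^ j) (B' := j * y ^ (j - 1))
    (by positivity) (by positivity) (by positivity) (by positivity) hd he h1 h2
  refine (le_of_eq ?_).trans (h3.trans (le_of_eq ?_))
  · congr 1; ring
  · ring

lemma rv_rem (L : List (ℕ × ℕ × ℕ)) {x y h d e : ℝ} (hx : 0 ≤ x) (hy : 0 ≤ y) (hd : |d| ≤ h)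
    (he : |e| ≤ h) :
    |rv L (x + d) (y + e) - rv L x y - rx L x y * d - ry L x y * e| ≤
      rv L (x + h) (y + h) - rv L x y - rx L x y * h - ry L x y * h := by
  induction L with
  | nil => simp [rv, rx, ry]
  | cons m L ih =>
    unfold rv rx ry at ih ⊢
    simp only [List.map_cons, List.sum_cons]
    have h1 := mono_rem m.2.1 m.2.2 hx hy hd he
    have h2 := mul_le_mul_of_nonneg_left h1 (Nat.cast_nonneg (α := ℝ) m.1)
    rw [← abs_of_nonneg (Nat.cast_nonneg (α := ℝ) m.1), ← abs_mul,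
      abs_of_nonneg (Nat.cast_nonneg (α := ℝ) m.1)] at h2
    have h3 := (abs_add_le _ _).trans (add_le_add h2 ih)
    refine (le_of_eq ?_).trans (h3.trans (le_of_eq ?_))
    · congr 1; ring
    · ring

/-! ### Scaled evaluation -/

/-- degree at most eight -/
def POK8 (L : List (ℕ × ℕ × ℕ)) : Prop := ∀ m ∈ L, m.2.1 + m.2.2 ≤ 8

lemma POK8.cons {m : ℕ × ℕ × ℕ} {L : List (ℕ × ℕ × ℕ)} (h : POK8 (m :: L)) :
    m.2.1 + m.2.2 ≤ 8 ∧ POK8 L :=
  ⟨h m (by simp), fun a ha => h a (by simp [ha])⟩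

lemma nv_cons (D : ℕ) (m : ℕ × ℕ × ℕ) (L : List (ℕ × ℕ × ℕ)) (X Y : ℕ) :
    nv D (m :: L) X Y =
      m.1 * (X ^ m.2.1 * Y ^ m.2.2 * D ^ (8 - (m.2.1 + m.2.2))) + nv D L X Y := rfl

lemma nx_cons (D : ℕ) (m : ℕ × ℕ × ℕ) (L : List (ℕ × ℕ × ℕ)) (X Y H : ℕ) :
    nx D (m :: L) X Y H =
      m.1 * (m.2.1 * X ^ (m.2.1 - 1) * H * Y ^ m.2.2 * D ^ (8 - (m.2.1 + m.2.2)))
        + nx D L X Y H := rfl

lemma ny_cons (D : ℕ) (m : ℕ × ℕ × ℕ) (L : List (ℕ × ℕ × ℕ)) (X Y H : ℕ) :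
    ny D (m :: L) X Y H =
      m.1 * (m.2.2 * Y ^ (m.2.2 - 1) * H * X ^ m.2.1 * D ^ (8 - (m.2.1 + m.2.2)))
        + ny D L X Y H := rfl

lemma pow_split {D : ℝ} (hD : D ≠ 0) {i j : ℕ} (h : i + j ≤ 8) (X Y : ℝ) :
    X ^ i * Y ^ j * D ^ (8 - (i + j)) = D ^ 8 * ((X / D) ^ i * (Y / D) ^ j) := by
  obtain ⟨k, hk⟩ := Nat.exists_eq_add_of_le h
  have e1 : 8 - (i + j) = k := by omega
  rw [e1, hk, pow_add, pow_add, div_pow, div_pow]
  field_simp

lemma nv_eq {D : ℕ} (hD : 0 < D) {L : List (ℕ × ℕ × ℕ)} (hL : POK8 L) (X Y : ℕ) :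
    (nv D L X Y : ℝ) = (D : ℝ) ^ 8 * rv L ((X : ℝ) / D) ((Y : ℝ) / D) := by
  have hD' : (D : ℝ) ≠ 0 := by positivity
  induction L with
  | nil => simp [nv, rv]
  | cons m L ih =>
    obtain ⟨h1, h2⟩ := hL.cons
    rw [nv_cons]
    push_cast
    rw [ih h2, pow_split hD' h1]
    unfold rv
    simp only [List.map_cons, List.sum_cons]
    ring

lemma nx_eq {D : ℕ} (hD : 0 < D) {L : List (ℕ × ℕ × ℕ)} (hL : POK8 L) (X Y H : ℕ) :
    (nx D L X Y H : ℝ) = (D : ℝ) ^ 8 * (rx L ((X : ℝ) / D) ((Y : ℝ) / D) * ((H : ℝ) / D)) := by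
  have hD' : (D : ℝ) ≠ 0 := by positivity
  induction L with
  | nil => simp [nx, rx]
  | cons m L ih =>
    obtain ⟨h1, h2⟩ := hL.cons
    rw [nx_cons]
    push_cast
    rw [ih h2]
    unfold rx
    simp only [List.map_cons, List.sum_cons]
    have h3 : (m.2.1 : ℝ) * (X : ℝ) ^ (m.2.1 - 1) * H * (Y : ℝ) ^ m.2.2
        * (D : ℝ) ^ (8 - (m.2.1 + m.2.2)) = (D : ℝ) ^ 8 *
        ((m.2.1 : ℝ) * ((X : ℝ) / D) ^ (m.2.1 - 1) * ((Y : ℝ) / D) ^ m.2.2 * ((H : ℝ) / D)) := by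
      rcases Nat.eq_zero_or_pos m.2.1 with h0 | h0
      · rw [h0]; simp
      · obtain ⟨k, hk⟩ := Nat.exists_eq_add_of_le h1
        have e1 : 8 - (m.2.1 + m.2.2) = k := by omega
        obtain ⟨i, hi⟩ := Nat.exists_eq_add_of_le h0
        have e2 : m.2.1 - 1 = i := by omega
        have e3 : 8 = 1 + i + m.2.2 + k := by omega
        rw [e1, e2]
        have e4 : (D : ℝ) ^ 8 = D * D ^ i * D ^ m.2.2 * D ^ k := by
          conv_lhs => rw [e3]
          rw [pow_add, pow_add, pow_add, pow_one]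
        rw [e4, div_pow, div_pow]
        field_simp
    rw [h3]
    ring

lemma ny_eq {D : ℕ} (hD : 0 < D) {L : List (ℕ × ℕ × ℕ)} (hL : POK8 L) (X Y H : ℕ) :
    (ny D L X Y H : ℝ) = (D : ℝ) ^ 8 * (ry L ((X : ℝ) / D) ((Y : ℝ) / D) * ((H : ℝ) / D)) := by
  have hD' : (D : ℝ) ≠ 0 := by positivity
  induction L with
  | nil => simp [ny, ry]
  | cons m L ih =>
    obtain ⟨h1, h2⟩ := hL.cons
    rw [ny_cons]
    push_cast
    rw [ih h2]
    unfold ry
    simp only [List.map_cons, List.sum_cons]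
    have h3 : (m.2.2 : ℝ) * (Y : ℝ) ^ (m.2.2 - 1) * H * (X : ℝ) ^ m.2.1
        * (D : ℝ) ^ (8 - (m.2.1 + m.2.2)) = (D : ℝ) ^ 8 *
        ((m.2.2 : ℝ) * ((Y : ℝ) / D) ^ (m.2.2 - 1) * ((X : ℝ) / D) ^ m.2.1 * ((H : ℝ) / D)) := by
      rcases Nat.eq_zero_or_pos m.2.2 with h0 | h0
      · rw [h0]; simp
      · obtain ⟨k, hk⟩ := Nat.exists_eq_add_of_le h1
        have e1 : 8 - (m.2.1 + m.2.2) = k := by omega
        obtain ⟨i, hi⟩ := Nat.exists_eq_add_of_le h0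
        have e2 : m.2.2 - 1 = i := by omega
        have e3 : 8 = m.2.1 + (1 + i) + k := by omega
        rw [e1, e2]
        have e4 : (D : ℝ) ^ 8 = D ^ m.2.1 * (D * D ^ i) * D ^ k := by
          conv_lhs => rw [e3]
          rw [pow_add, pow_add, pow_add, pow_one]
        rw [e4, div_pow, div_pow]
        field_simp
    rw [h3]
    ring

/-! ### The exponential -/

lemma exp_ge_tayp {v : ℝ} (hv : 0 ≤ v) : 1 + v + v ^ 2 / 2 + v ^ 3 / 6 ≤ Real.exp v := by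
  have h := Real.sum_le_exp_of_nonneg hv 4
  simp only [Finset.sum_range_succ, Finset.sum_range_zero, Nat.factorial] at h
  norm_num at h
  linarith

lemma exp_ge_tayn {v : ℝ} (hv : 0 ≤ v) (hv1 : v ≤ 1) :
    1 - v + v ^ 2 / 2 - v ^ 3 / 6 ≤ Real.exp (-v) := by
  have h := Real.exp_bound (x := -v) (by rw [abs_neg, abs_of_nonneg hv]; exact hv1)
    (n := 5) (by norm_num)
  simp only [Finset.sum_range_succ, Finset.sum_range_zero, Nat.factorial] at h
  rw [abs_neg, abs_of_nonneg hv] at h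
  have h2 := (abs_le.mp h).1
  norm_num at h2
  have h3 : v ^ 5 ≤ v ^ 4 := pow_le_pow_of_le_one hv hv1 (by norm_num)
  have h4 : 0 ≤ v ^ 4 := by positivity
  nlinarith

lemma sqn_sound {S : ℕ} (hS : 0 < S) (n : ℕ) : ∀ (y : ℕ) (v : ℝ),
    (y : ℝ) / S ≤ Real.exp v → ((sqn S n y : ℕ) : ℝ) / S ≤ Real.exp (2 ^ n * v) := by
  have hS' : (0 : ℝ) < S := by exact_mod_cast hS
  induction n with
  | zero =>
    intro y v h
    simpa [sqn] using h
  | succ n ih =>
    intro y v h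
    have h1 : sqn S (n + 1) y = sqn S n (y * y / S) := rfl
    rw [h1, pow_succ, mul_assoc]
    apply ih
    have h2 : ((y * y / S : ℕ) : ℝ) ≤ ((y * y : ℕ) : ℝ) / S := Nat.cast_div_le
    have h3 : (0 : ℝ) ≤ (y : ℝ) / S := by positivity
    calc ((y * y / S : ℕ) : ℝ) / S ≤ (((y * y : ℕ) : ℝ) / S) / S :=
          div_le_div_of_nonneg_right h2 hS'.le
      _ = ((y : ℝ) / S) * ((y : ℝ) / S) := by push_cast; field_simp
      _ ≤ Real.exp v * Real.exp v := mul_le_mul h h h3 (Real.exp_pos _).le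
      _ = Real.exp (2 * v) := by rw [← Real.exp_add]; congr 1; ring

lemma tayp_sound {S Q t : ℕ} (hS : 0 < S) (hQ : 0 < Q) :
    ((tayp S Q t : ℕ) : ℝ) / S ≤ Real.exp ((t : ℝ) / Q) := by
  have hS' : (0 : ℝ) < S := by exact_mod_cast hS
  have hQ' : (0 : ℝ) < Q := by exact_mod_cast hQ
  refine le_trans ?_ (exp_ge_tayp (by positivity : (0 : ℝ) ≤ (t : ℝ) / Q))
  rw [div_le_iff₀ hS']
  have h1 : ((tayp S Q t : ℕ) : ℝ) ≤
      ((S * ((6 * Q ^ 3 + 6 * Q ^ 2 * t) + (3 * Q * t ^ 2 + t ^ 3)) : ℕ) : ℝ)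
        / ((6 * Q ^ 3 : ℕ) : ℝ) := Nat.cast_div_le
  refine h1.trans (le_of_eq ?_)
  push_cast
  field_simp
  ring

lemma tayn_sound {S Q t : ℕ} (hS : 0 < S) (hQ : 0 < Q) (ht : t ≤ Q) :
    ((tayn S Q t : ℕ) : ℝ) / S ≤ Real.exp (-((t : ℝ) / Q)) := by
  have hS' : (0 : ℝ) < S := by exact_mod_cast hS
  have hQ' : (0 : ℝ) < Q := by exact_mod_cast hQ
  have ht' : (t : ℝ) ≤ Q := by exact_mod_cast ht
  have h0 : (0 : ℝ) ≤ (t : ℝ) / Q := by positivity
  have h1' : (t : ℝ) / Q ≤ 1 := by rw [div_le_one hQ']; exact ht'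
  rw [div_le_iff₀ hS']
  have h1 : ((tayn S Q t : ℕ) : ℝ) ≤
      ((S * ((6 * Q ^ 3 + 3 * Q * t ^ 2) - (6 * Q ^ 2 * t + t ^ 3)) : ℕ) : ℝ)
        / ((6 * Q ^ 3 : ℕ) : ℝ) := Nat.cast_div_le
  refine h1.trans ?_
  rcases le_or_gt (6 * Q ^ 2 * t + t ^ 3) (6 * Q ^ 3 + 3 * Q * t ^ 2) with hle | hgt
  · have h2 := mul_le_mul_of_nonneg_right (exp_ge_tayn h0 h1') hS'.le
    refine le_trans (le_of_eq ?_) h2
    rw [Nat.cast_mul, Nat.cast_sub hle]
    push_cast
    field_simp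
    ring
  · rw [Nat.sub_eq_zero_of_le hgt.le]
    simp only [mul_zero, Nat.cast_zero, zero_div]
    positivity

lemma elow_sound {S q p n : ℕ} (hS : 0 < S) (hq : 0 < q) :
    ((elow S q p n : ℕ) : ℝ) / S ≤ Real.exp (((p : ℝ) - n) / q) := by
  have hq' : (0 : ℝ) < q := by exact_mod_cast hq
  have hQ : 0 < Nat.mul 512 q := Nat.mul_pos (by norm_num) hq
  have hQc : ((Nat.mul 512 q : ℕ) : ℝ) = 512 * q := by
    show ((512 * q : ℕ) : ℝ) = 512 * q
    push_cast; ring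
  have h40 : ((Nat.mul 40 q : ℕ) : ℝ) = 40 * q := by
    show ((40 * q : ℕ) : ℝ) = 40 * q
    push_cast; ring
  unfold elow
  split
  · next h =>
    have h1 : n ≤ p := Nat.le_of_ble_eq_true h
    have hc : ((Nat.sub p n : ℕ) : ℝ) = (p : ℝ) - n := Nat.cast_sub h1
    split
    · next h2 =>
      have h3 := sqn_sound hS 9 _ _ (tayp_sound (t := Nat.sub p n) hS hQ)
      refine h3.trans (le_of_eq ?_)
      rw [hQc, hc]
      congr 1
      field_simp
      norm_num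
      ring
    · next h2 =>
      have h3 := sqn_sound hS 9 _ _ (tayp_sound (t := Nat.mul 40 q) hS hQ)
      refine h3.trans ?_
      rw [Real.exp_le_exp, hQc, h40]
      have h4 : ¬ (Nat.sub p n ≤ Nat.mul 40 q) := by
        intro hcon
        rw [Nat.ble_eq_true_of_le hcon] at h2
        exact Bool.noConfusion h2
      have h5 : ((Nat.mul 40 q : ℕ) : ℝ) ≤ ((Nat.sub p n : ℕ) : ℝ) := by
        exact_mod_cast (not_le.mp h4).le
      rw [h40, hc] at h5
      have e : (2 : ℝ) ^ 9 * (40 * q / (512 * q)) = 40 := by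
        field_simp
        norm_num
      rw [e, le_div_iff₀ hq']
      exact h5
  · next h =>
    have h1 : p ≤ n := by
      by_contra hcon
      rw [Nat.ble_eq_true_of_le (not_le.mp hcon).le] at h
      exact Bool.noConfusion h
    have hc : ((Nat.sub n p : ℕ) : ℝ) = (n : ℝ) - p := Nat.cast_sub h1
    split
    · next h2 =>
      have h4 : Nat.sub n p ≤ Nat.mul 512 q :=
        (Nat.le_of_ble_eq_true h2).trans (Nat.mul_le_mul_right q (by norm_num))
      have h3 := sqn_sound hS 9 _ _ (tayn_sound (t := Nat.sub n p) hS hQ h4)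
      refine h3.trans (le_of_eq ?_)
      rw [hQc, hc]
      congr 1
      field_simp
      ring
    · simp only [Nat.cast_zero, zero_div]
      positivity

end Pool.Agent.TH428.RM
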