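import Pool.Agent.TH428.RM.QTProof

set_option autoImplicit false

/-!
# Soundness of the quadtree checker, boxes and trees
-/

namespace Pool.Agent.TH428.RM

/-- well formed data -/
structure QOK (q : QD) : Prop where
  hD : 0 < q.D
  hM : 0 < q.M
  h1 : 0 < q.e1.wd
  h2 : 0 < q.e2.wd
  hpos : POK8 q.pos
  hneg : POK8 q.neg

/-- the exponential of the data, times `K` -/
noncomputable def ee (q : QD) (e : ED) (x y : ℝ) : ℝ :=
  (q.K : ℝ) * ((e.w : ℝ) / e.wd) *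
    Real.exp ((((e.ap : ℝ) - e.an) * x + ((e.bp : ℝ) - e.bn) * y) / q.M)

/-- the polynomial of the data -/
noncomputable def ff (q : QD) (x y : ℝ) : ℝ := rv q.pos x y - rv q.neg x y

lemma ee_nonneg (q : QD) (e : ED) (x y : ℝ) : 0 ≤ ee q e x y := by
  unfold ee; positivity

lemma nd_cast (a b : ℕ) : ((nd a b : ℕ) : ℝ) = |(a : ℝ) - b| := by
  unfold nd
  rcases le_total a b with h | h
  · have h1 : Nat.sub a b = 0 := Nat.sub_eq_zero_of_le h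
    have h2 : ((Nat.sub b a : ℕ) : ℝ) = (b : ℝ) - a := Nat.cast_sub h
    have h3 : Nat.add (Nat.sub a b) (Nat.sub b a) = Nat.sub b a := by rw [h1]; exact Nat.zero_add _
    rw [h3, h2, abs_sub_comm, abs_of_nonneg]
    have : (a : ℝ) ≤ b := by exact_mod_cast h
    linarith
  · have h1 : Nat.sub b a = 0 := Nat.sub_eq_zero_of_le h
    have h2 : ((Nat.sub a b : ℕ) : ℝ) = (a : ℝ) - b := Nat.cast_sub h
    have h3 : Nat.add (Nat.sub a b) (Nat.sub b a) = Nat.sub a b := by rw [h1]; exact Nat.add_zero _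
    rw [h3, h2, abs_of_nonneg]
    have : (b : ℝ) ≤ a := by exact_mod_cast h
    linarith

lemma cadd (a b : ℕ) : ((Nat.add a b : ℕ) : ℝ) = (a : ℝ) + b := Nat.cast_add a b

lemma csub (a b : ℕ) : (a : ℝ) - b ≤ ((Nat.sub a b : ℕ) : ℝ) := by
  have h : a ≤ Nat.sub a b + b := Nat.sub_le_iff_le_add.mp le_rfl
  have h2 : (a : ℝ) ≤ ((Nat.sub a b : ℕ) : ℝ) + b := by exact_mod_cast h
  linarith

lemma elo_sound {q : QD} (hq : QOK q) {e : ED} (he : 0 < e.wd) (X Y o : ℕ) :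
    ((elo q e X Y o : ℕ) : ℝ) ≤ (q.D : ℝ) ^ 8 * ((q.K : ℝ) * ((e.w : ℝ) / e.wd) *
      Real.exp ((((e.ap : ℝ) - e.an) * ((X : ℝ) / q.D) + ((e.bp : ℝ) - e.bn) * ((Y : ℝ) / q.D)) / q.M
        - (o : ℝ) / (q.D * q.M))) := by
  have hD' : (0 : ℝ) < q.D := by exact_mod_cast hq.hD
  have hM' : (0 : ℝ) < q.M := by exact_mod_cast hq.hM
  have he' : (0 : ℝ) < e.wd := by exact_mod_cast he
  have hS0 : 0 < SS0 := by decide
  have hS0' : (0 : ℝ) < SS0 := by exact_mod_cast hS0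
  have h1 : ((elo q e X Y o : ℕ) : ℝ) ≤ ((e.w * q.K * q.D ^ 8 *
      elow SS0 (q.D * q.M) (e.ap * X + e.bp * Y) (e.an * X + e.bn * Y + o) : ℕ) : ℝ)
        / ((SS0 * e.wd : ℕ) : ℝ) := Nat.cast_div_le
  refine h1.trans ?_
  have h2 := elow_sound (p := e.ap * X + e.bp * Y) (n := e.an * X + e.bn * Y + o) hS0
    (Nat.mul_pos hq.hD hq.hM)
  rw [div_le_iff₀ hS0'] at h2
  rw [div_le_iff₀ (by positivity)]
  have e0 : ((((e.ap * X + e.bp * Y : ℕ) : ℝ) - ((e.an * X + e.bn * Y + o : ℕ) : ℝ))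
      / ((q.D * q.M : ℕ) : ℝ)) = ((((e.ap : ℝ) - e.an) * ((X : ℝ) / q.D)
        + ((e.bp : ℝ) - e.bn) * ((Y : ℝ) / q.D)) / q.M - (o : ℝ) / (q.D * q.M)) := by
    push_cast
    field_simp
    ring
  rw [e0] at h2
  have h3 := mul_le_mul_of_nonneg_left h2
    (by positivity : (0 : ℝ) ≤ (e.w : ℝ) * q.K * q.D ^ 8)
  push_cast
  refine h3.trans (le_of_eq ?_)
  field_simp

lemma box_upper {q : QD} (hq : QOK q) {X Y H : ℕ} {x y : ℝ}
    (hx : |x - (X : ℝ) / q.D| ≤ (H : ℝ) / q.D) (hy : |y - (Y : ℝ) / q.D| ≤ (H : ℝ) / q.D) :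
    (q.D : ℝ) ^ 8 * ff q x y ≤ (nv q.D q.pos X Y : ℝ) - nv q.D q.neg X Y
      + (q.D : ℝ) ^ 8 * ((rx q.pos ((X : ℝ) / q.D) ((Y : ℝ) / q.D)
        - rx q.neg ((X : ℝ) / q.D) ((Y : ℝ) / q.D)) * (x - (X : ℝ) / q.D)
        + (ry q.pos ((X : ℝ) / q.D) ((Y : ℝ) / q.D)
        - ry q.neg ((X : ℝ) / q.D) ((Y : ℝ) / q.D)) * (y - (Y : ℝ) / q.D))
      + ((nv q.D q.pos (X + H) (Y + H) : ℝ) + nv q.D q.neg (X + H) (Y + H)
        - (nv q.D q.pos X Y + nv q.D q.neg X Y + (nx q.D q.pos X Y H + nx q.D q.neg X Y H)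
          + (ny q.D q.pos X Y H + ny q.D q.neg X Y H))) := by
  have hD' : (0 : ℝ) < q.D := by exact_mod_cast hq.hD
  have hX : (0 : ℝ) ≤ (X : ℝ) / q.D := by positivity
  have hY : (0 : ℝ) ≤ (Y : ℝ) / q.D := by positivity
  have h1 := (abs_le.mp (rv_rem q.pos hX hY hx hy)).2
  have h2 := (abs_le.mp (rv_rem q.neg hX hY hx hy)).1
  have e1 : (X : ℝ) / q.D + (x - (X : ℝ) / q.D) = x := by ring
  have e2 : (Y : ℝ) / q.D + (y - (Y : ℝ) / q.D) = y := by ring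
  rw [e1, e2] at h1 h2
  have e3 : (X : ℝ) / q.D + (H : ℝ) / q.D = ((X + H : ℕ) : ℝ) / q.D := by push_cast; ring
  have e4 : (Y : ℝ) / q.D + (H : ℝ) / q.D = ((Y + H : ℕ) : ℝ) / q.D := by push_cast; ring
  rw [e3, e4] at h1 h2
  rw [nv_eq hq.hD hq.hpos, nv_eq hq.hD hq.hneg, nv_eq hq.hD hq.hpos, nv_eq hq.hD hq.hneg,
    nx_eq hq.hD hq.hpos, nx_eq hq.hD hq.hneg, ny_eq hq.hD hq.hpos, ny_eq hq.hD hq.hneg]
  unfold ff
  have h3 : rv q.pos x y - rv q.neg x y ≤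
      rv q.pos ((X : ℝ) / q.D) ((Y : ℝ) / q.D) - rv q.neg ((X : ℝ) / q.D) ((Y : ℝ) / q.D)
      + ((rx q.pos ((X : ℝ) / q.D) ((Y : ℝ) / q.D)
        - rx q.neg ((X : ℝ) / q.D) ((Y : ℝ) / q.D)) * (x - (X : ℝ) / q.D)
        + (ry q.pos ((X : ℝ) / q.D) ((Y : ℝ) / q.D)
        - ry q.neg ((X : ℝ) / q.D) ((Y : ℝ) / q.D)) * (y - (Y : ℝ) / q.D))
      + (rv q.pos (((X + H : ℕ) : ℝ) / q.D) (((Y + H : ℕ) : ℝ) / q.D)
        + rv q.neg (((X + H : ℕ) : ℝ) / q.D) (((Y + H : ℕ) : ℝ) / q.D)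
        - (rv q.pos ((X : ℝ) / q.D) ((Y : ℝ) / q.D) + rv q.neg ((X : ℝ) / q.D) ((Y : ℝ) / q.D)
          + (rx q.pos ((X : ℝ) / q.D) ((Y : ℝ) / q.D) * ((H : ℝ) / q.D)
            + rx q.neg ((X : ℝ) / q.D) ((Y : ℝ) / q.D) * ((H : ℝ) / q.D))
          + (ry q.pos ((X : ℝ) / q.D) ((Y : ℝ) / q.D) * ((H : ℝ) / q.D)
            + ry q.neg ((X : ℝ) / q.D) ((Y : ℝ) / q.D) * ((H : ℝ) / q.D)))) := by
    linarith
  have h4 := mul_le_mul_of_nonneg_left h3 (by positivity : (0 : ℝ) ≤ (q.D : ℝ) ^ 8)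
  refine h4.trans (le_of_eq ?_)
  ring

lemma le_of_ble {a b : ℕ} (h : Nat.ble a b = true) : (a : ℝ) ≤ b := by
  exact_mod_cast Nat.le_of_ble_eq_true h

/-- soundness of the tangent test -/
lemma tchk_sound {q : QD} (hq : QOK q) {e : ED} (he : 0 < e.wd) {X Y H v vn gxp gxn gyp gyn : ℕ}
    {x y Gx Gy F : ℝ}
    (hx : |x - (X : ℝ) / q.D| ≤ (H : ℝ) / q.D) (hy : |y - (Y : ℝ) / q.D| ≤ (H : ℝ) / q.D)
    (hgx : (gxp : ℝ) - gxn = Gx * ((H : ℝ) / q.D)) (hgy : (gyp : ℝ) - gyn = Gy * ((H : ℝ) / q.D))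
    (hF : F ≤ (v : ℝ) - vn + (Gx * (x - (X : ℝ) / q.D) + Gy * (y - (Y : ℝ) / q.D)))
    (h : tchk q e H v vn gxp gxn gyp gyn (elo q e X Y 0) = true) :
    F ≤ (q.D : ℝ) ^ 8 * ee q e x y := by
  have hD' : (0 : ℝ) < q.D := by exact_mod_cast hq.hD
  have hM' : (0 : ℝ) < q.M := by exact_mod_cast hq.hM
  have he' : (0 : ℝ) < e.wd := by exact_mod_cast he
  obtain ⟨E, hE⟩ : ∃ E : ℕ, E = elo q e X Y 0 := ⟨_, rfl⟩
  rw [← hE] at h
  have hEs := elo_sound hq he X Y 0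
  rw [← hE] at hEs
  simp only [Nat.cast_zero, zero_div, sub_zero] at hEs
  have h1 := le_of_ble h
  have e1 : ((Nat.add (Nat.add (Nat.mul (Nat.mul q.D q.M) v)
      (nd (Nat.add (Nat.mul (Nat.mul H e.ap) E) (Nat.mul (Nat.mul q.D q.M) gxn))
        (Nat.add (Nat.mul (Nat.mul H e.an) E) (Nat.mul (Nat.mul q.D q.M) gxp))))
      (nd (Nat.add (Nat.mul (Nat.mul H e.bp) E) (Nat.mul (Nat.mul q.D q.M) gyn))
        (Nat.add (Nat.mul (Nat.mul H e.bn) E) (Nat.mul (Nat.mul q.D q.M) gyp))) : ℕ) : ℝ)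
      = (q.D : ℝ) * q.M * v
        + |(H * e.ap * E + q.D * q.M * gxn : ℝ) - (H * e.an * E + q.D * q.M * gxp)|
        + |(H * e.bp * E + q.D * q.M * gyn : ℝ) - (H * e.bn * E + q.D * q.M * gyp)| := by
    show (((q.D * q.M * v + nd (H * e.ap * E + q.D * q.M * gxn) (H * e.an * E + q.D * q.M * gxp))
      + nd (H * e.bp * E + q.D * q.M * gyn) (H * e.bn * E + q.D * q.M * gyp) : ℕ) : ℝ) = _
    push_cast
    rw [nd_cast, nd_cast]
    push_cast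
    ring
  have e2 : ((Nat.mul (Nat.mul q.D q.M) (Nat.add vn E) : ℕ) : ℝ)
      = (q.D : ℝ) * q.M * (vn + E) := by
    show ((q.D * q.M * (vn + E) : ℕ) : ℝ) = _
    push_cast
    ring
  rw [e1, e2] at h1
  obtain ⟨α, hα⟩ : ∃ α : ℝ, α = ((e.ap : ℝ) - e.an) / q.M := ⟨_, rfl⟩
  obtain ⟨β, hβ⟩ : ∃ β : ℝ, β = ((e.bp : ℝ) - e.bn) / q.M := ⟨_, rfl⟩
  have a1 : (H * e.ap * E + q.D * q.M * gxn : ℝ) - (H * e.an * E + q.D * q.M * gxp)
      = (q.D : ℝ) * q.M * (((H : ℝ) / q.D) * (α * E - Gx)) := by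
    have : (gxp : ℝ) = gxn + Gx * ((H : ℝ) / q.D) := by linarith
    rw [this, hα]
    field_simp
    ring
  have a2 : (H * e.bp * E + q.D * q.M * gyn : ℝ) - (H * e.bn * E + q.D * q.M * gyp)
      = (q.D : ℝ) * q.M * (((H : ℝ) / q.D) * (β * E - Gy)) := by
    have : (gyp : ℝ) = gyn + Gy * ((H : ℝ) / q.D) := by linarith
    rw [this, hβ]
    field_simp
    ring
  have hDM : (0 : ℝ) < (q.D : ℝ) * q.M := by positivity
  rw [a1, a2, abs_mul, abs_mul (q.D * q.M : ℝ) ((H : ℝ) / q.D * (β * E - Gy)),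
    abs_of_pos hDM, ← mul_add, ← mul_add] at h1
  have h2 := le_of_mul_le_mul_left h1 hDM
  have hh : (0 : ℝ) ≤ (H : ℝ) / q.D := by positivity
  rw [abs_mul, abs_mul ((H : ℝ) / q.D) (β * E - Gy), abs_of_nonneg hh] at h2
  have h3 : (Gx - α * E) * (x - (X : ℝ) / q.D) ≤ (H : ℝ) / q.D * |α * E - Gx| := by
    refine (le_abs_self _).trans ?_
    rw [abs_mul, abs_sub_comm Gx, mul_comm]
    exact mul_le_mul_of_nonneg_right hx (abs_nonneg _)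
  have h4 : (Gy - β * E) * (y - (Y : ℝ) / q.D) ≤ (H : ℝ) / q.D * |β * E - Gy| := by
    refine (le_abs_self _).trans ?_
    rw [abs_mul, abs_sub_comm Gy, mul_comm]
    exact mul_le_mul_of_nonneg_right hy (abs_nonneg _)
  have h5 : F ≤ E * (1 + (α * (x - (X : ℝ) / q.D) + β * (y - (Y : ℝ) / q.D))) := by
    nlinarith
  refine h5.trans ?_
  obtain ⟨s, hs⟩ : ∃ s : ℝ, s = α * (x - (X : ℝ) / q.D) + β * (y - (Y : ℝ) / q.D) := ⟨_, rfl⟩
  rw [← hs]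
  rcases le_or_gt 0 (1 + s) with hs1 | hs1
  · refine (mul_le_mul_of_nonneg_right hEs hs1).trans ?_
    unfold ee
    have h6 : 1 + s ≤ Real.exp s := by rw [add_comm]; exact Real.add_one_le_exp s
    have h7 : (((e.ap : ℝ) - e.an) * x + ((e.bp : ℝ) - e.bn) * y) / q.M
        = (((e.ap : ℝ) - e.an) * ((X : ℝ) / q.D) + ((e.bp : ℝ) - e.bn) * ((Y : ℝ) / q.D)) / q.M
          + s := by
      rw [hs, hα, hβ]
      field_simp
      ring
    rw [h7, Real.exp_add]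
    have h8 : (0 : ℝ) ≤ (q.D : ℝ) ^ 8 * ((q.K : ℝ) * ((e.w : ℝ) / e.wd) *
      Real.exp ((((e.ap : ℝ) - e.an) * ((X : ℝ) / q.D)
        + ((e.bp : ℝ) - e.bn) * ((Y : ℝ) / q.D)) / q.M)) := by positivity
    refine (mul_le_mul_of_nonneg_left h6 h8).trans (le_of_eq ?_)
    ring
  · have h6 : (E : ℝ) * (1 + s) ≤ 0 := mul_nonpos_of_nonneg_of_nonpos (Nat.cast_nonneg _) hs1.le
    exact h6.trans (mul_nonneg (by positivity) (ee_nonneg _ _ _ _))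

/-- soundness of the corner test -/
lemma cchk_sound {q : QD} (hq : QOK q) {e : ED} (he : 0 < e.wd) {X Y H vn up : ℕ}
    {x y F : ℝ}
    (hx : |x - (X : ℝ) / q.D| ≤ (H : ℝ) / q.D) (hy : |y - (Y : ℝ) / q.D| ≤ (H : ℝ) / q.D)
    (hF : F ≤ (up : ℝ) - vn)
    (h : cchk q e X Y H vn up = true) :
    F ≤ (q.D : ℝ) ^ 8 * ee q e x y := by
  have hD' : (0 : ℝ) < q.D := by exact_mod_cast hq.hD
  have hM' : (0 : ℝ) < q.M := by exact_mod_cast hq.hM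
  have h1 := le_of_ble h
  obtain ⟨o, ho⟩ : ∃ o : ℕ, o = Nat.mul H (Nat.add (Nat.add e.ap e.an) (Nat.add e.bp e.bn)) :=
    ⟨_, rfl⟩
  rw [← ho] at h1
  have e1 : ((Nat.add vn (elo q e X Y o) : ℕ) : ℝ) = (vn : ℝ) + (elo q e X Y o : ℕ) := by
    show ((vn + elo q e X Y o : ℕ) : ℝ) = _
    push_cast
    ring
  rw [e1] at h1
  have h2 : F ≤ (elo q e X Y o : ℕ) := by linarith
  refine h2.trans ((elo_sound hq he X Y o).trans ?_)
  unfold ee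
  refine mul_le_mul_of_nonneg_left ?_ (by positivity)
  refine mul_le_mul_of_nonneg_left ?_ (by positivity)
  rw [Real.exp_le_exp]
  have e2 : (o : ℝ) = H * ((e.ap + e.an) + (e.bp + e.bn)) := by
    rw [ho]
    show ((H * ((e.ap + e.an) + (e.bp + e.bn)) : ℕ) : ℝ) = _
    push_cast
    ring
  have b1 : -((((e.ap : ℝ) + e.an)) * ((H : ℝ) / q.D))
      ≤ ((e.ap : ℝ) - e.an) * (x - (X : ℝ) / q.D) := by
    have := abs_mul ((e.ap : ℝ) - e.an) (x - (X : ℝ) / q.D)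
    have h3 : |(e.ap : ℝ) - e.an| ≤ (e.ap : ℝ) + e.an := by
      rw [abs_le]
      have := Nat.cast_nonneg (α := ℝ) e.ap
      have := Nat.cast_nonneg (α := ℝ) e.an
      constructor <;> linarith
    have h4 : |((e.ap : ℝ) - e.an) * (x - (X : ℝ) / q.D)|
        ≤ (((e.ap : ℝ) + e.an)) * ((H : ℝ) / q.D) := by
      rw [this]
      exact mul_le_mul h3 hx (abs_nonneg _) (by positivity)
    exact (abs_le.mp h4).1
  have b2 : -((((e.bp : ℝ) + e.bn)) * ((H : ℝ) / q.D))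
      ≤ ((e.bp : ℝ) - e.bn) * (y - (Y : ℝ) / q.D) := by
    have := abs_mul ((e.bp : ℝ) - e.bn) (y - (Y : ℝ) / q.D)
    have h3 : |(e.bp : ℝ) - e.bn| ≤ (e.bp : ℝ) + e.bn := by
      rw [abs_le]
      have := Nat.cast_nonneg (α := ℝ) e.bp
      have := Nat.cast_nonneg (α := ℝ) e.bn
      constructor <;> linarith
    have h4 : |((e.bp : ℝ) - e.bn) * (y - (Y : ℝ) / q.D)|
        ≤ (((e.bp : ℝ) + e.bn)) * ((H : ℝ) / q.D) := by
      rw [this]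
      exact mul_le_mul h3 hy (abs_nonneg _) (by positivity)
    exact (abs_le.mp h4).1
  have e3 : (((e.ap : ℝ) - e.an) * ((X : ℝ) / q.D) + ((e.bp : ℝ) - e.bn) * ((Y : ℝ) / q.D)) / q.M
      - (o : ℝ) / (q.D * q.M)
      = (((e.ap : ℝ) - e.an) * ((X : ℝ) / q.D) + ((e.bp : ℝ) - e.bn) * ((Y : ℝ) / q.D)
        - (((e.ap : ℝ) + e.an) * ((H : ℝ) / q.D) + ((e.bp : ℝ) + e.bn) * ((H : ℝ) / q.D))) / q.M := by
    rw [e2]
    field_simp
  rw [e3]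
  apply div_le_div_of_nonneg_right _ hM'.le
  have c1 : ((e.ap : ℝ) - e.an) * x = ((e.ap : ℝ) - e.an) * ((X : ℝ) / q.D)
    + ((e.ap : ℝ) - e.an) * (x - (X : ℝ) / q.D) := by ring
  have c2 : ((e.bp : ℝ) - e.bn) * y = ((e.bp : ℝ) - e.bn) * ((Y : ℝ) / q.D)
    + ((e.bp : ℝ) - e.bn) * (y - (Y : ℝ) / q.D) := by ring
  rw [c1, c2]
  linarith


end Pool.Agent.TH428.RM
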