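import Pool.Agent.TH428.RM.QTProof2

set_option autoImplicit false

/-!
# Soundness of the quadtree checker, leaves and trees
-/

namespace Pool.Agent.TH428.RM

lemma band_eq {a b : Bool} (h : band a b = true) : a = true ∧ b = true := by
  cases a <;> cases b <;> simp_all [band]

lemma bor_eq {a b : Bool} (h : bor a b = true) : a = true ∨ b = true := by
  cases a <;> cases b <;> simp_all [bor]

theorem leafchk_sound {q : QD} (hq : QOK q) {X Y H : ℕ} (h : leafchk q X Y H = true) {x y : ℝ}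
    (hx : |x - (X : ℝ) / q.D| ≤ (H : ℝ) / q.D) (hy : |y - (Y : ℝ) / q.D| ≤ (H : ℝ) / q.D) :
    ff q x y ≤ ee q q.e1 x y ∧ ff q x y ≤ ee q q.e2 x y := by
  have hD' : (0 : ℝ) < q.D := by exact_mod_cast hq.hD
  have hD8 : (0 : ℝ) < (q.D : ℝ) ^ 8 := by positivity
  have hbox := box_upper hq hx hy
  have gx1 := nx_eq hq.hD hq.hpos X Y H
  have gx2 := nx_eq hq.hD hq.hneg X Y H
  have gy1 := ny_eq hq.hD hq.hpos X Y H
  have gy2 := ny_eq hq.hD hq.hneg X Y H
  unfold leafchk at h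
  obtain ⟨hiN, hhi⟩ : ∃ a : ℕ, a = Nat.add (nv q.D q.pos (Nat.add X H) (Nat.add Y H))
      (nv q.D q.neg (Nat.add X H) (Nat.add Y H)) := ⟨_, rfl⟩
  have hhi' : (hiN : ℝ) = (nv q.D q.pos (X + H) (Y + H) : ℝ) + nv q.D q.neg (X + H) (Y + H) := by
    rw [hhi, cadd]
    rfl
  rw [← hhi] at h
  rw [← hhi'] at hbox
  generalize nv q.D q.pos X Y = vp at *
  generalize nv q.D q.neg X Y = vn at *
  generalize nx q.D q.pos X Y H = gxp at *
  generalize nx q.D q.neg X Y H = gxn at *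
  generalize ny q.D q.pos X Y H = gyp at *
  generalize ny q.D q.neg X Y H = gyn at *
  unfold lchk2 at h
  obtain ⟨v, hv⟩ : ∃ a : ℕ, a = Nat.add vp (Nat.sub hiN (Nat.add (Nat.add vp vn)
    (Nat.add (Nat.add gxp gxn) (Nat.add gyp gyn)))) := ⟨_, rfl⟩
  rw [← hv] at h
  have hv' : (vp : ℝ) + (hiN - (vp + vn + (gxp + gxn) + (gyp + gyn))) ≤ v := by
    rw [hv, cadd]
    have e2 := csub hiN (Nat.add (Nat.add vp vn) (Nat.add (Nat.add gxp gxn) (Nat.add gyp gyn)))
    rw [cadd, cadd, cadd, cadd, cadd] at e2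
    linarith
  obtain ⟨Gx, hGx⟩ : ∃ G : ℝ, G = (q.D : ℝ) ^ 8 * (rx q.pos ((X : ℝ) / q.D) ((Y : ℝ) / q.D)
        - rx q.neg ((X : ℝ) / q.D) ((Y : ℝ) / q.D)) := ⟨_, rfl⟩
  obtain ⟨Gy, hGy⟩ : ∃ G : ℝ, G = (q.D : ℝ) ^ 8 * (ry q.pos ((X : ℝ) / q.D) ((Y : ℝ) / q.D)
        - ry q.neg ((X : ℝ) / q.D) ((Y : ℝ) / q.D)) := ⟨_, rfl⟩
  have hF : (q.D : ℝ) ^ 8 * ff q x y ≤ (v : ℝ) - vn
      + (Gx * (x - (X : ℝ) / q.D) + Gy * (y - (Y : ℝ) / q.D)) := by
    refine hbox.trans ?_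
    rw [hGx, hGy]
    linarith
  have hgx : (gxp : ℝ) - gxn = Gx * ((H : ℝ) / q.D) := by rw [gx1, gx2, hGx]; ring
  have hgy : (gyp : ℝ) - gyn = Gy * ((H : ℝ) / q.D) := by rw [gy1, gy2, hGy]; ring
  obtain ⟨up, hup⟩ : ∃ a : ℕ, a = Nat.add (Nat.add v (nd gxp gxn)) (nd gyp gyn) := ⟨_, rfl⟩
  rw [← hup] at h
  have hup' : (up : ℝ) = v + |Gx * ((H : ℝ) / q.D)| + |Gy * ((H : ℝ) / q.D)| := by
    rw [hup, ← hgx, ← hgy, ← nd_cast, ← nd_cast, cadd, cadd]
  have hh : (0 : ℝ) ≤ (H : ℝ) / q.D := by positivity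
  have hF2 : (q.D : ℝ) ^ 8 * ff q x y ≤ (up : ℝ) - vn := by
    refine hF.trans ?_
    rw [hup']
    have h3 : Gx * (x - (X : ℝ) / q.D) ≤ |Gx * ((H : ℝ) / q.D)| := by
      refine (le_abs_self _).trans ?_
      rw [abs_mul, abs_mul, abs_of_nonneg hh]
      exact mul_le_mul_of_nonneg_left hx (abs_nonneg _)
    have h4 : Gy * (y - (Y : ℝ) / q.D) ≤ |Gy * ((H : ℝ) / q.D)| := by
      refine (le_abs_self _).trans ?_
      rw [abs_mul, abs_mul, abs_of_nonneg hh]
      exact mul_le_mul_of_nonneg_left hy (abs_nonneg _)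
    linarith
  have hech : ∀ e : ED, 0 < e.wd → echk q e X Y H v vn gxp gxn gyp gyn up = true →
      ff q x y ≤ ee q e x y := by
    intro e he hc
    have : (q.D : ℝ) ^ 8 * ff q x y ≤ (q.D : ℝ) ^ 8 * ee q e x y := by
      rcases bor_eq hc with ht | hc
      · exact tchk_sound hq he hx hy hgx hgy hF ht
      · exact cchk_sound hq he hx hy hF2 hc
    exact le_of_mul_le_mul_left this hD8
  rcases bor_eq h with h0 | h0
  · have h1 := le_of_ble h0
    have h2 : (q.D : ℝ) ^ 8 * ff q x y ≤ (q.D : ℝ) ^ 8 * 0 := by rw [mul_zero]; linarith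
    have h3 := le_of_mul_le_mul_left h2 hD8
    exact ⟨h3.trans (ee_nonneg _ _ _ _), h3.trans (ee_nonneg _ _ _ _)⟩
  · obtain ⟨h1, h2⟩ := band_eq h0
    exact ⟨hech q.e1 hq.h1 h1, hech q.e2 hq.h2 h2⟩

theorem qchk_sound {q : QD} (hq : QOK q) (n : ℕ) : ∀ X Y H : ℕ, H ≤ X → H ≤ Y →
    qchk q n X Y H = true → ∀ x y : ℝ, |x - (X : ℝ) / q.D| ≤ (H : ℝ) / q.D →
    |y - (Y : ℝ) / q.D| ≤ (H : ℝ) / q.D → ff q x y ≤ ee q q.e1 x y ∧ ff q x y ≤ ee q q.e2 x y := by
  have hD' : (0 : ℝ) < q.D := by exact_mod_cast hq.hD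
  induction n with
  | zero =>
    intro X Y H _ _ h x y hx hy
    exact leafchk_sound hq h hx hy
  | succ n ih =>
    intro X Y H hX hY h x y hx hy
    rcases bor_eq h with h | h
    · exact leafchk_sound hq h hx hy
    · obtain ⟨h0, h⟩ := band_eq h
      obtain ⟨h1, h⟩ := band_eq h
      obtain ⟨h2, h⟩ := band_eq h
      obtain ⟨h3, h4⟩ := band_eq h
      have hH : 2 * (H / 2) = H := Nat.eq_of_beq_eq_true h0
      obtain ⟨G, hG⟩ : ∃ G : ℕ, G = H / 2 := ⟨_, rfl⟩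
      have hHG : H = 2 * G := by rw [hG]; exact hH.symm
      have q1 : qchk q n (X - G) (Y - G) G = true := by rw [hG]; exact h1
      have q2 : qchk q n (X - G) (Y + G) G = true := by rw [hG]; exact h2
      have q3 : qchk q n (X + G) (Y - G) G = true := by rw [hG]; exact h3
      have q4 : qchk q n (X + G) (Y + G) G = true := by rw [hG]; exact h4
      have hXG : G ≤ X := by omega
      have hYG : G ≤ Y := by omega
      have cX : ((X - G : ℕ) : ℝ) = (X : ℝ) - G := Nat.cast_sub hXG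
      have cY : ((Y - G : ℕ) : ℝ) = (Y : ℝ) - G := Nat.cast_sub hYG
      have hHr : (H : ℝ) / q.D = 2 * ((G : ℝ) / q.D) := by rw [hHG]; push_cast; ring
      rw [hHr] at hx hy
      obtain ⟨x1, x2⟩ := abs_le.mp hx
      obtain ⟨y1, y2⟩ := abs_le.mp hy
      rcases le_total x ((X : ℝ) / q.D) with hx0 | hx0
      · have hxa : |x - ((X - G : ℕ) : ℝ) / q.D| ≤ (G : ℝ) / q.D := by
          rw [cX, sub_div, abs_le]; constructor <;> linarith
        rcases le_total y ((Y : ℝ) / q.D) with hy0 | hy0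
        · exact ih _ _ _ (by omega) (by omega) q1 x y hxa (by
            rw [cY, sub_div, abs_le]; constructor <;> linarith)
        · exact ih _ _ _ (by omega) (by omega) q2 x y hxa (by
            push_cast; rw [add_div, abs_le]; constructor <;> linarith)
      · have hxa : |x - ((X + G : ℕ) : ℝ) / q.D| ≤ (G : ℝ) / q.D := by
          push_cast; rw [add_div, abs_le]; constructor <;> linarith
        rcases le_total y ((Y : ℝ) / q.D) with hy0 | hy0
        · exact ih _ _ _ (by omega) (by omega) q3 x y hxa (by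
            rw [cY, sub_div, abs_le]; constructor <;> linarith)
        · exact ih _ _ _ (by omega) (by omega) q4 x y hxa (by
            push_cast; rw [add_div, abs_le]; constructor <;> linarith)

/-- the quadrant `[0, R] ^ 2` -/
theorem quad_sound {q : QD} (hq : QOK q) {n R : ℕ} (h : qchk q n (R * q.D) (R * q.D) (R * q.D) = true)
    {x y : ℝ} (hx : 0 ≤ x) (hx' : x ≤ 2 * R) (hy : 0 ≤ y) (hy' : y ≤ 2 * R) :
    ff q x y ≤ ee q q.e1 x y ∧ ff q x y ≤ ee q q.e2 x y := by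
  have hD' : (0 : ℝ) < q.D := by exact_mod_cast hq.hD
  have e : ((R * q.D : ℕ) : ℝ) / q.D = R := by
    push_cast
    field_simp
  refine qchk_sound hq n _ _ _ le_rfl le_rfl h x y ?_ ?_
  · rw [e, abs_le]; constructor <;> linarith
  · rw [e, abs_le]; constructor <;> linarith

end Pool.Agent.TH428.RM
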