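import Pool.Agent.W478R.Ind
import Pool.Agent.W478R.Main
import Pool.Agent.TH428.RM.Combine2

set_option autoImplicit false

/-!
# The two-reservoir book theorem with asymmetric certificates
-/

open Finset

namespace Pool.Agent.TH428.RM

open H110R2 W478R

lemma cont_step2 {V : Type} {X XH XS Q X'' YH YS : Finset V} {rH rS : V → V → ℝ}
    {pH pS bH bS TH TS : ℝ} {N : ℕ} {ρ mh ms : V → ℝ} {uh us L ε C4 : ℝ}
    {ξH KH ξS KS mHH mSH mHS mSS : V → V → ℝ} {uHH uSH uHS uSS : V → ℝ}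
    (oH : SideOut X YH rH pH bH TH N ρ mh uh L ε C4 XH ξH KH mHH mSH uHH uSH)
    (oS : SideOut X YS rS pS bS TS N ρ ms us L ε C4 XS ξS KS mHS mSS uHS uSS)
    (hε : ε < 1) (hpH : 0 < pH) {v : V} (hvH : v ∈ XH) (hvS : v ∈ XS) (hQH : Q ⊆ XH)
    (hQS : Q ⊆ XS) (hQ : Q ⊆ X'') (hL : ∀ z ∈ Q, |ξH v z| ≤ L ∧ |ξS v z| ≤ L)
    (hρ0 : ∀ z ∈ X, 0 ≤ ρ z) {S Θ A : ℝ} (hS : 0 < S)
    (hρS : ∀ z, ρ z * S =
      ph uh (ex rH pH YH mh z) ^ (N ^ 2) * ph us (ex rS pS YS ms z) ^ (N ^ 2))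
    (hmh0 : ∀ y ∈ YH, 0 ≤ mh y) (hms0 : ∀ y ∈ YS, 0 ≤ ms y) (hN : 1 ≤ N)
    (hIH : ∑ z ∈ X'', ph (uHH v) (ex rH pH YH (mHH v) z) ^ (N ^ 2) *
        ph (uSS v) (ex rS pS YS (mSS v) z) ^ (N ^ 2) ≤
      Θ * Real.exp (-A) * (ren bH N YH (mHH v) ^ N * ren bS N YS (mSS v) ^ N))
    (hΘ : Θ * (ren bH N YH mh ^ N * ren bS N YS ms ^ N) ≤ S) :
    (1 - ε) ^ 2 * ∑ z ∈ Q, ρ z * Real.exp (ξH v z + TS * ξS v z) ≤
      Real.exp (-A + bH * Real.log (1 / pH) + bS * KK pS TS) := by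
  have hN2 : N ^ 2 ≠ 0 := by positivity
  have e : Real.exp (-A + bH * Real.log (1 / pH) + bS * KK pS TS) =
      Real.exp (-A) / (pH ^ bH * Real.exp (-(bS * KK pS TS))) := by
    rw [Real.rpow_def_of_pos hpH, ← Real.exp_add, ← Real.exp_sub]
    congr 1
    rw [one_div, Real.log_inv]
    ring
  rw [e]
  have hRH : 0 < ren bH N YH (mHH v) ^ N := pow_pos (ren_pos (oH.hH0 v hvH) (oH.hH1 v hvH)) _
  have hRS : 0 < ren bS N YS (mSS v) ^ N := pow_pos (ren_pos (oS.hS0 v hvS) (oS.hS1 v hvS)) _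
  have hRh : 0 ≤ ren bH N YH mh ^ N := pow_nonneg (ren_nonneg hmh0) _
  have hRs : 0 ≤ ren bS N YS ms ^ N := pow_nonneg (ren_nonneg hms0) _
  refine step_calc (hz := fun z => ph (uHH v) (ex rH pH YH (mHH v) z) ^ (N ^ 2))
    (sz := fun z => ph (uSS v) (ex rS pS YS (mSS v) z) ^ (N ^ 2))
    (ξ := fun z => ξH v z + TS * ξS v z) (R := ren bH N YH mh ^ N * ren bS N YS ms ^ N)
    (R' := ren bH N YH (mHH v) ^ N * ren bS N YS (mSS v) ^ N) (S := S) (Θ := Θ)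
    hQ (fun z => pow_nonneg (ph_nonneg _ _) _) (fun z => pow_nonneg (ph_nonneg _ _) _)
    ?_ hIH hΘ (mul_nonneg hRh hRs) (mul_pos hRH hRS) hS (by positivity) (Real.exp_pos _).le
  intro z hz
  have hz0 := hρ0 z (oH.hXg (hQH hz))
  rcases hz0.lt_or_eq with hzp | hzz
  · have h1 := hρS z
    have h2 : 0 < ph uh (ex rH pH YH mh z) ^ (N ^ 2) * ph us (ex rS pS YS ms z) ^ (N ^ 2) := by
      rw [← h1]; exact mul_pos hzp hS
    have h3 : 0 < ph uh (ex rH pH YH mh z) := by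
      rcases (ph_nonneg uh (ex rH pH YH mh z)).lt_or_eq with h | h
      · exact h
      · rw [← h, zero_pow hN2, zero_mul] at h2
        exact absurd h2 (lt_irrefl _)
    have h4 : 0 < ph us (ex rS pS YS ms z) := by
      rcases (ph_nonneg us (ex rS pS YS ms z)).lt_or_eq with h | h
      · exact h
      · rw [← h, zero_pow hN2, mul_zero] at h2
        exact absurd h2 (lt_irrefl _)
    obtain ⟨q1, q1'⟩ := ph_eq h3
    obtain ⟨q2, q2'⟩ := ph_eq h4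
    rw [h1, q1, q2]
    exact pt_calc hε (Real.rpow_nonneg hpH.le _) q1'.le hRH.le
      (oH.hHard v hvH z (hQH hz) hzp (hL z hz).1)
      (oS.hSoft v hvS z (hQS hz) hzp (hL z hz).2)
      (mul_nonneg (pow_nonneg (ph_nonneg _ _) _) hRs)
  · rw [← hzz, zero_mul, mul_zero, zero_mul]
    have := ph_nonneg (uHH v) (ex rH pH YH (mHH v) z)
    have := ph_nonneg (uSS v) (ex rS pS YS (mSS v) z)
    positivity

theorem key2 {V : Type} [DecidableEq V] {G : SimpleGraph V} {k l N : ℕ}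
    {LM1 LM2 A W p1 p2 b1 b2 T1 T2 L ε C4 : ℝ} {Y1 Y2 : Finset V} (hN : 1 ≤ N) (hp1 : 0 < p1)
    (hp2 : 0 < p2) (hb1 : 0 < b1) (hb2 : 0 < b2) (hε0 : 0 < ε) (hε1 : ε < 1)
    (hR1 : ∀ a ≤ k, ∀ Z ⊆ Y1, Z.Nonempty → NoCl G a Z → b1 * Real.log Z.card ≤ LM1 + A * a)
    (hR2 : ∀ t ≤ l, ∀ Z ⊆ Y2, Z.Nonempty → NoCl Gᶜ t Z → b2 * Real.log Z.card ≤ LM2 + W * t)
    (hS1 : ∀ (X Y : Finset V) (r : V → V → ℝ) (ρ m : V → ℝ) (u : ℝ), Side X Y r p1 b1 N ρ m u →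
      ∃ (Xg : Finset V) (ξ K : V → V → ℝ) (mH mS : V → V → ℝ) (uH uS : V → ℝ),
      SideOut X Y r p1 b1 T1 N ρ m u L ε (C4 + ε) Xg ξ K mH mS uH uS)
    (hS2 : ∀ (X Y : Finset V) (r : V → V → ℝ) (ρ m : V → ℝ) (u : ℝ), Side X Y r p2 b2 N ρ m u →
      ∃ (Xg : Finset V) (ξ K : V → V → ℝ) (mH mS : V → V → ℝ) (uH uS : V → ℝ),
      SideOut X Y r p2 b2 T2 N ρ m u L ε (C4 + ε) Xg ξ K mH mS uH uS)
    (hC : ∀ (X Xg Y1 Y2 : Finset V) (ρ : V → ℝ) (ξ1 ξ2 K1 K2 : V → V → ℝ)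
      (Rd Bl : V → V → Prop),
      Xg ⊆ X → (∀ z ∈ X, 0 ≤ ρ z) → ∑ z ∈ X, ρ z = 1 → ∑ z ∈ X, ρ z - ∑ z ∈ Xg, ρ z ≤ 2 * ε →
      (∀ z ∈ X, ρ z ≤ ε) →
      (∀ v ∈ Xg, ∑ z ∈ X, ρ z * ξ1 v z = 0) → (∀ v ∈ Xg, ∑ z ∈ X, ρ z * ξ2 v z = 0) →
      (∀ v ∈ Xg, ∑ z ∈ X, ρ z * ξ1 v z ^ 8 ≤ C4 + ε) →
      (∀ v ∈ Xg, ∑ z ∈ X, ρ z * ξ2 v z ^ 8 ≤ C4 + ε) →
      (∃ (wt : V → ℝ) (g : V → V → ℝ), (∀ y ∈ Y1, 0 ≤ wt y) ∧
        ∀ v ∈ Xg, ∀ z ∈ Xg, K1 v z = ∑ y ∈ Y1, wt y * g v y * g z y) →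
      (∃ (wt : V → ℝ) (g : V → V → ℝ), (∀ y ∈ Y2, 0 ≤ wt y) ∧
        ∀ v ∈ Xg, ∀ z ∈ Xg, K2 v z = ∑ y ∈ Y2, wt y * g v y * g z y) →
      (∀ v ∈ Xg, ∀ z ∈ Xg, |K1 v z - ξ1 v z| ≤ ε * (1 + |ξ1 v z|)) →
      (∀ v ∈ Xg, ∀ z ∈ Xg, |K2 v z - ξ2 v z| ≤ ε * (1 + |ξ2 v z|)) →
      (∀ v ∈ Xg, ∀ z ∈ Xg, v ≠ z → Rd v z ∨ Bl v z) →
      (∀ v ∈ Xg, ∀ Q ⊆ Xg, (∀ z ∈ Q, Rd v z ∧ |ξ1 v z| ≤ L ∧ |ξ2 v z| ≤ L) →
        (1 - ε) ^ 2 * ∑ z ∈ Q, ρ z * Real.exp (ξ1 v z + T2 * ξ2 v z) ≤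
          Real.exp (-A + b1 * Real.log (1 / p1) + b2 * KK p2 T2)) →
      (∀ v ∈ Xg, ∀ Q ⊆ Xg, (∀ z ∈ Q, Bl v z ∧ |ξ1 v z| ≤ L ∧ |ξ2 v z| ≤ L) →
        (1 - ε) ^ 2 * ∑ z ∈ Q, ρ z * Real.exp (T1 * ξ1 v z + ξ2 v z) ≤
          Real.exp (-W + b2 * Real.log (1 / p2) + b1 * KK p1 T1)) →
      False) :
    ∀ n a t : ℕ, a + t ≤ n → a ≤ k → t ≤ l → ∀ X' Y1' Y2' : Finset V, Y1' ⊆ Y1 → Y2' ⊆ Y2 →
      NoCl G a (X' ∪ Y1') → NoCl Gᶜ t (X' ∪ Y2') →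
      ∀ (m1 m2 : V → ℝ) (u w : ℝ), (∀ y ∈ Y1', 0 ≤ m1 y) → (∀ y ∈ Y2', 0 ≤ m2 y) →
        ∑ y ∈ Y1', m1 y = 1 → ∑ y ∈ Y2', m2 y = 1 → 0 ≤ u → 0 ≤ w →
        SS (ri G) (ri Gᶜ) p1 p2 N X' Y1' Y2' m1 m2 u w ≤
          Real.exp (LM1 + LM2) / ε * Real.exp (A * a + W * t) *
            (ren b1 N Y1' m1 ^ N * ren b2 N Y2' m2 ^ N) := by
  intro n
  induction n with
  | zero =>
    intro a t hat _ _ X' Y1' Y2' _ _ hXa _
    have : a = 0 := by omega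
    subst this
    exact absurd hXa (not_noCl_zero _ _)
  | succ n ih =>
    intro a t hat hak htl X' Y1' Y2' hY1 hY2 hXa hXt
    rcases a with _ | a
    · exact absurd hXa (not_noCl_zero _ _)
    rcases t with _ | t
    · exact absurd hXt (not_noCl_zero _ _)
    intro m1 m2 u w hm1 hm2 hs1 hs2 hu hw
    by_contra hcon
    push Not at hcon
    have hne1 : Y1'.Nonempty := by
      rw [nonempty_iff_ne_empty]
      rintro rfl
      rw [sum_empty] at hs1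
      exact zero_ne_one hs1
    have hne2 : Y2'.Nonempty := by
      rw [nonempty_iff_ne_empty]
      rintro rfl
      rw [sum_empty] at hs2
      exact zero_ne_one hs2
    obtain ⟨n1, n2, c, d, hn1, hn2, hns1, hns2, hc, hd, hmax⟩ :=
      exists_max2 (r1 := ri G) (r2 := ri Gᶜ) (p1 := p1) (p2 := p2) (β1 := b1) (β2 := b2) (N := N)
        (X := X') (Y1 := Y1') (Y2 := Y2') (ri_zero_or_one G) (ri_zero_or_one Gᶜ) hp1.le hp2.le
        hb1 hb2 hne1 hne2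
    obtain ⟨S, hSd⟩ : ∃ S, S = SS (ri G) (ri Gᶜ) p1 p2 N X' Y1' Y2' n1 n2 c d := ⟨_, rfl⟩
    obtain ⟨Θ, hΘd⟩ : ∃ Θ, Θ = Real.exp (LM1 + LM2) / ε *
      Real.exp (A * ((a + 1 : ℕ) : ℝ) + W * ((t + 1 : ℕ) : ℝ)) := ⟨_, rfl⟩
    have hΘ0 : 0 < Θ := by rw [hΘd]; positivity
    rw [← hΘd] at hcon
    rw [← hSd] at hmax
    have hP1 : 0 < ren b1 N Y1' n1 ^ N := pow_pos (ren_pos hn1 hns1) _
    have hP2 : 0 < ren b2 N Y2' n2 ^ N := pow_pos (ren_pos hn2 hns2) _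
    have hq1 : 0 < ren b1 N Y1' m1 ^ N := pow_pos (ren_pos hm1 hs1) _
    have hq2 : 0 < ren b2 N Y2' m2 ^ N := pow_pos (ren_pos hm2 hs2) _
    -- the maximal value is large
    have hSΘ : Θ * (ren b1 N Y1' n1 ^ N * ren b2 N Y2' n2 ^ N) < S := by
      have h1 := hmax m1 m2 u w hm1 hm2 hs1 hs2 hu hw
      have h2 := mul_lt_mul_of_pos_right hcon (mul_pos hP1 hP2)
      have h3 : Θ * (ren b1 N Y1' n1 ^ N * ren b2 N Y2' n2 ^ N) *
          (ren b1 N Y1' m1 ^ N * ren b2 N Y2' m2 ^ N) <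
          S * (ren b1 N Y1' m1 ^ N * ren b2 N Y2' m2 ^ N) := by
        refine lt_of_lt_of_le (lt_of_eq_of_lt ?_ h2) h1
        ring
      exact lt_of_mul_lt_mul_right h3 (mul_pos hq1 hq2).le
    have hS0 : 0 < S := lt_trans (mul_pos hΘ0 (mul_pos hP1 hP2)) hSΘ
    have hinv : 1 / S ≤ ε := by
      rw [div_le_iff₀ hS0]
      have h1 := ren_pow_ge (β := b1) hN hb1 hne1 hn1 hns1
      have h2 := ren_pow_ge (β := b2) hN hb2 hne2 hn2 hns2
      have h3 := hR1 (a + 1) hak Y1' hY1 hne1 (hXa.mono subset_union_right)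
      have h4 := hR2 (t + 1) htl Y2' hY2 hne2 (hXt.mono subset_union_right)
      have h5 : Real.exp (-(LM1 + A * ((a + 1 : ℕ) : ℝ))) ≤ ren b1 N Y1' n1 ^ N :=
        (Real.exp_le_exp.2 (neg_le_neg h3)).trans h1
      have h6 : Real.exp (-(LM2 + W * ((t + 1 : ℕ) : ℝ))) ≤ ren b2 N Y2' n2 ^ N :=
        (Real.exp_le_exp.2 (neg_le_neg h4)).trans h2
      have h7 : Θ * (Real.exp (-(LM1 + A * ((a + 1 : ℕ) : ℝ))) *
          Real.exp (-(LM2 + W * ((t + 1 : ℕ) : ℝ)))) = 1 / ε := by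
        rw [hΘd, ← Real.exp_add, div_mul_eq_mul_div, ← Real.exp_add, div_mul_eq_mul_div,
          ← Real.exp_add]
        congr 1
        rw [← Real.exp_zero]
        congr 1
        ring
      have h8 : 1 / ε ≤ S := by
        rw [← h7]
        refine le_trans ?_ hSΘ.le
        exact mul_le_mul_of_nonneg_left (mul_le_mul h5 h6 (Real.exp_pos _).le hP1.le) hΘ0.le
      rw [div_le_iff₀ hε0] at h8
      linarith
    -- the distribution
    obtain ⟨ρ, hρ⟩ : ∃ ρ : V → ℝ, ρ = fun z => ph c (ex (ri G) p1 Y1' n1 z) ^ (N ^ 2) *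
      ph d (ex (ri Gᶜ) p2 Y2' n2 z) ^ (N ^ 2) / S := ⟨_, rfl⟩
    have hρS : ∀ z, ρ z * S = ph c (ex (ri G) p1 Y1' n1 z) ^ (N ^ 2) *
      ph d (ex (ri Gᶜ) p2 Y2' n2 z) ^ (N ^ 2) := by
      intro z
      rw [hρ]
      exact div_mul_cancel₀ _ hS0.ne'
    have hρε : ∀ z ∈ X', ρ z ≤ ε := by
      intro z _
      refine le_trans ?_ hinv
      rw [le_div_iff₀ hS0, hρS]
      have g1 := pow_le_one₀ (n := N ^ 2) (ph_nonneg c (ex (ri G) p1 Y1' n1 z))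
        (ph_le_one hc (ex_le_one (ri_zero_or_one G) hp1.le hn1 hns1 z))
      have g2 := pow_le_one₀ (n := N ^ 2) (ph_nonneg d (ex (ri Gᶜ) p2 Y2' n2 z))
        (ph_le_one hd (ex_le_one (ri_zero_or_one Gᶜ) hp2.le hn2 hns2 z))
      exact mul_le_one₀ g1 (pow_nonneg (ph_nonneg _ _) _) g2
    -- both sides
    have side1 : Side X' Y1' (ri G) p1 b1 N ρ n1 c := by
      have hSe : S = S1 (ri G) p1 N X' Y1' (fun z => ph d (ex (ri Gᶜ) p2 Y2' n2 z) ^ (N ^ 2)) n1 c :=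
        hSd
      have h := side_of (r := ri G) (p := p1) (β := b1) (N := N) (X := X') (Y := Y1') (m := n1)
        (u := c) (g := fun z => ph d (ex (ri Gᶜ) p2 Y2' n2 z) ^ (N ^ 2)) (ri_zero_or_one G) hN
        (fun z _ => pow_nonneg (ph_nonneg _ _) _) hn1 hns1 hc (by rw [← hSe]; exact hS0) (by
          intro m' u' g1 g2 g3
          rw [← hSe]
          have h1 := hmax m' n2 u' d g1 hn2 g2 hns2 g3 hd
          rw [← mul_assoc, ← mul_assoc] at h1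
          exact le_of_mul_le_mul_right h1 hP2)
      rw [← hSe, ← hρ] at h
      exact h
    have side2 : Side X' Y2' (ri Gᶜ) p2 b2 N ρ n2 d := by
      have hcomm : ∀ (m1 m2 : V → ℝ) (u w : ℝ), SS (ri G) (ri Gᶜ) p1 p2 N X' Y1' Y2' m1 m2 u w =
          S1 (ri Gᶜ) p2 N X' Y2' (fun z => ph u (ex (ri G) p1 Y1' m1 z) ^ (N ^ 2)) m2 w := by
        intro m1 m2 u w
        unfold SS S1
        exact sum_congr rfl fun z _ => mul_comm _ _
      have hSe : S = S1 (ri Gᶜ) p2 N X' Y2' (fun z => ph c (ex (ri G) p1 Y1' n1 z) ^ (N ^ 2)) n2 d := by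
        rw [hSd, hcomm]
      have hρ' : ρ = fun z => ph d (ex (ri Gᶜ) p2 Y2' n2 z) ^ (N ^ 2) *
          ph c (ex (ri G) p1 Y1' n1 z) ^ (N ^ 2) / S := by
        rw [hρ]
        funext z
        rw [mul_comm (ph c (ex (ri G) p1 Y1' n1 z) ^ (N ^ 2))]
      have h := side_of (r := ri Gᶜ) (p := p2) (β := b2) (N := N) (X := X') (Y := Y2') (m := n2)
        (u := d) (g := fun z => ph c (ex (ri G) p1 Y1' n1 z) ^ (N ^ 2)) (ri_zero_or_one Gᶜ) hN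
        (fun z _ => pow_nonneg (ph_nonneg _ _) _) hn2 hns2 hd (by rw [← hSe]; exact hS0) (by
          intro m' u' g1 g2 g3
          rw [← hSe]
          have h1 := hmax n1 m' c u' hn1 g1 hns1 g2 hc g3
          rw [hcomm] at h1
          have h2 : S1 (ri Gᶜ) p2 N X' Y2' (fun z => ph c (ex (ri G) p1 Y1' n1 z) ^ (N ^ 2)) m' u' *
              ren b2 N Y2' n2 ^ N * ren b1 N Y1' n1 ^ N ≤
              S * ren b2 N Y2' m' ^ N * ren b1 N Y1' n1 ^ N := by linarith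
          exact le_of_mul_le_mul_right h2 hP1)
      rw [← hSe, ← hρ'] at h
      exact h
    obtain ⟨X1, ξ1, K1, mH1, mS1, uH1, uS1, o1⟩ := hS1 X' Y1' (ri G) ρ n1 c side1
    obtain ⟨X2, ξ2, K2, mH2, mS2, uH2, uS2, o2⟩ := hS2 X' Y2' (ri Gᶜ) ρ n2 d side2
    have hρ0 := side1.hρ0
    have hρ1 := side1.hρ1
    refine hC X' (X1 ∩ X2) Y1' Y2' ρ ξ1 ξ2 K1 K2 (fun v z => G.Adj v z) (fun v z => Gᶜ.Adj v z)
      (inter_subset_left.trans o1.hXg) hρ0 hρ1 ?_ hρε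
      (fun v hv => o1.hmean v (mem_inter.1 hv).1) (fun v hv => o2.hmean v (mem_inter.1 hv).2)
      (fun v hv => o1.hmom v (mem_inter.1 hv).1) (fun v hv => o2.hmom v (mem_inter.1 hv).2)
      ?_ ?_ (fun v hv z hz => o1.hclose v (mem_inter.1 hv).1 z (mem_inter.1 hz).1)
      (fun v hv z hz => o2.hclose v (mem_inter.1 hv).2 z (mem_inter.1 hz).2) ?_ ?_ ?_
    · have h1 := sum_union_inter (s₁ := X1) (s₂ := X2) (f := ρ)
      have h2 : ∑ z ∈ X1 ∪ X2, ρ z ≤ ∑ z ∈ X', ρ z :=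
        sum_le_sum_of_subset_of_nonneg (union_subset o1.hXg o2.hXg) fun z hz _ => hρ0 z hz
      have h3 := o1.hbad
      have h4 := o2.hbad
      linarith
    · obtain ⟨wt, g, hw, hg⟩ := o1.hgram
      exact ⟨wt, g, hw, fun v hv z hz => hg v (mem_inter.1 hv).1 z (mem_inter.1 hz).1⟩
    · obtain ⟨wt, g, hw, hg⟩ := o2.hgram
      exact ⟨wt, g, hw, fun v hv z hz => hg v (mem_inter.1 hv).2 z (mem_inter.1 hz).2⟩
    · intro v _ z _ hvz
      by_cases h : G.Adj v z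
      · exact Or.inl h
      · exact Or.inr ((SimpleGraph.compl_adj _ _ _).2 ⟨hvz, h⟩)
    · -- red step
      intro v hv Q hQ hQp
      have hv1 := (mem_inter.1 hv).1
      have hv2 := (mem_inter.1 hv).2
      have hQX : Q ⊆ nb G v X' := fun z hz =>
        mem_nb.2 ⟨o1.hXg (mem_inter.1 (hQ hz)).1, (hQp z hz).1⟩
      have hr := o1.hHr v hv1
      refine cont_step2 o1 o2 hε1 hp1 hv1 hv2 (hQ.trans inter_subset_left)
        (hQ.trans inter_subset_right) hQX (fun z hz => (hQp z hz).2) hρ0 hS0 hρS hn1 hn2 hN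
        (Θ := Θ) ?_ hSΘ.le
      have h := ih a (t + 1) (by omega) (by omega) htl (nb G v X') (nb G v Y1') Y2'
        ((nb_subset _ _ _).trans hY1) hY2
        (hXa.step (mem_union_left _ (o1.hXg hv1))
          (union_subset_union (nb_subset _ _ _) (nb_subset _ _ _))
          (fun z hz => by
            rcases mem_union.1 hz with h | h
            · exact (mem_nb.1 h).2
            · exact (mem_nb.1 h).2))
        (hXt.mono (union_subset_union (nb_subset _ _ _) Subset.rfl))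
        (mH1 v) (mS2 v) (uH1 v) (uS2 v)
        (fun y hy => o1.hH0 v hv1 y (nb_subset _ _ _ hy)) (o2.hS0 v hv2)
        (by rw [sum_restrict hr]; exact o1.hH1 v hv1) (o2.hS1 v hv2) (o1.hHu v hv1) (o2.hSu v hv2)
      rw [ren_restrict hb1 hr] at h
      unfold SS at h
      simp only [ex_restrict (ri G) hr] at h
      refine h.trans (le_of_eq ?_)
      congr 1
      rw [hΘd, mul_assoc, ← Real.exp_add]
      congr 2
      push_cast
      ring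
    · -- blue step
      intro v hv Q hQ hQp
      have hv1 := (mem_inter.1 hv).1
      have hv2 := (mem_inter.1 hv).2
      have hQX : Q ⊆ nb Gᶜ v X' := fun z hz =>
        mem_nb.2 ⟨o1.hXg (mem_inter.1 (hQ hz)).1, (hQp z hz).1⟩
      have hr := o2.hHr v hv2
      have e0 : ∀ z ∈ Q, ρ z * Real.exp (T1 * ξ1 v z + ξ2 v z) =
          ρ z * Real.exp (ξ2 v z + T1 * ξ1 v z) := fun z _ => by rw [add_comm]
      rw [sum_congr rfl e0]
      refine cont_step2 o2 o1 hε1 hp2 hv2 hv1 (hQ.trans inter_subset_right)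
        (hQ.trans inter_subset_left) hQX (fun z hz => (hQp z hz).2.symm) hρ0 hS0
        (fun z => by rw [hρS, mul_comm]) hn2 hn1 hN
        (Θ := Θ) ?_ (by rw [mul_comm (ren b2 N Y2' n2 ^ N)]; exact hSΘ.le)
      have h := ih (a + 1) t (by omega) hak (by omega) (nb Gᶜ v X') Y1' (nb Gᶜ v Y2')
        hY1 ((nb_subset _ _ _).trans hY2)
        (hXa.mono (union_subset_union (nb_subset _ _ _) Subset.rfl))
        (hXt.step (mem_union_left _ (o1.hXg hv1))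
          (union_subset_union (nb_subset _ _ _) (nb_subset _ _ _))
          (fun z hz => by
            rcases mem_union.1 hz with h | h
            · exact (mem_nb.1 h).2
            · exact (mem_nb.1 h).2))
        (mS1 v) (mH2 v) (uS1 v) (uH2 v)
        (o1.hS0 v hv1) (fun y hy => o2.hH0 v hv2 y (nb_subset _ _ _ hy)) (o1.hS1 v hv1)
        (by rw [sum_restrict hr]; exact o2.hH1 v hv2) (o1.hSu v hv1) (o2.hHu v hv2)
      rw [ren_restrict hb2 hr] at h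
      unfold SS at h
      simp only [ex_restrict (ri Gᶜ) hr] at h
      have e1 : ∀ z ∈ nb Gᶜ v X', ph (uH2 v) (ex (ri Gᶜ) p2 Y2' (mH2 v) z) ^ (N ^ 2) *
          ph (uS1 v) (ex (ri G) p1 Y1' (mS1 v) z) ^ (N ^ 2) =
          ph (uS1 v) (ex (ri G) p1 Y1' (mS1 v) z) ^ (N ^ 2) *
          ph (uH2 v) (ex (ri Gᶜ) p2 Y2' (mH2 v) z) ^ (N ^ 2) := fun z _ => mul_comm _ _
      rw [sum_congr rfl e1]
      refine h.trans (le_of_eq ?_)
      rw [mul_comm (ren b1 N Y1' (mS1 v) ^ N)]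
      congr 1
      rw [hΘd, mul_assoc, ← Real.exp_add]
      congr 2
      push_cast
      ring

theorem tbook_of2 (hS : SideMain) (hC : Combine2) : TBookThm2 := by
  intro T1 T2 wR wB g0 a1 a2 P dl B0 p1 p2 b1 b2 A W hcert hpk δ0 hδ0
  have hp1 : 0 < p1 := by linarith [hpk.hp1]
  have hp2 : 0 < p2 := by linarith [hpk.hp2]
  have hB0 : 0 ≤ B0 := by
    have h1 : 0 ≤ b1 * (1 - p1) := mul_nonneg hpk.hb1.le (by linarith [hpk.hp1'])
    have h2 : 0 ≤ B0 * p1 := h1.trans hpk.hB1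
    exact nonneg_of_mul_nonneg_left h2 hp1
  have hC4 : 0 ≤ C8c B0 := by
    unfold C8c
    have : 1 ≤ Real.exp (B0 / 25) := Real.one_le_exp (by positivity)
    nlinarith
  obtain ⟨L, ε, hL, hε0, hε1, hcomb⟩ := hC T1 T2 wR wB g0 a1 a2 P dl (C8c B0)
    (Real.exp (-A + b1 * Real.log (1 / p1) + b2 * KK p2 T2))
    (Real.exp (-W + b2 * Real.log (1 / p2) + b1 * KK p1 T1)) hcert hC4 (Real.exp_pos _).le
    (Real.exp_pos _).le hpk.hwin
  obtain ⟨N1, hN1⟩ := hS p1 b1 T1 B0 hpk.hp1 hpk.hp1' hpk.hb1 hcert.hT10 hcert.hT11 hpk.hB1 L ε hL hε0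
  obtain ⟨N2, hN2⟩ := hS p2 b2 T2 B0 hpk.hp2 hpk.hp2' hpk.hb2 hcert.hT20 hcert.hT21 hpk.hB2 L ε hL hε0
  obtain ⟨N, hNd⟩ : ∃ N, N = max (max N1 N2) 1 := ⟨_, rfl⟩
  have hNN1 : N1 ≤ N := by rw [hNd]; exact (le_max_left _ _).trans (le_max_left _ _)
  have hNN2 : N2 ≤ N := by rw [hNd]; exact (le_max_right _ _).trans (le_max_left _ _)
  have hN : 1 ≤ N := by rw [hNd]; exact le_max_right _ _
  refine ⟨-Real.log ε - 4 * N ^ 2 * Real.log δ0, ?_⟩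
  intro V _ G k l LM1 LM2 X Y1 Y2 hX hY1 hY2 hXk hXl hR1 hR2 hd1 hd2
  have hkey := key2 (V := V) (G := G) (k := k) (l := l) (N := N) (LM1 := LM1) (LM2 := LM2)
    (A := A) (W := W) (p1 := p1) (p2 := p2) (b1 := b1) (b2 := b2) (T1 := T1) (T2 := T2) (L := L) (ε := ε)
    (C4 := C8c B0) (Y1 := Y1) (Y2 := Y2) hN hp1 hp2 hpk.hb1 hpk.hb2 hε0 hε1 hR1 hR2
    (hN1 N hNN1 V) (hN2 N hNN2 V) (hcomb V) (k + l) k l le_rfl le_rfl le_rfl X Y1 Y2 Subset.rfl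
    Subset.rfl hXk hXl (fun _ => (Y1.card : ℝ)⁻¹) (fun _ => (Y2.card : ℝ)⁻¹) δ0 δ0
    (fun _ _ => by positivity) (fun _ _ => by positivity)
    (by rw [sum_const, nsmul_eq_mul, mul_inv_cancel₀]
        exact_mod_cast hY1.card_pos.ne')
    (by rw [sum_const, nsmul_eq_mul, mul_inv_cancel₀]
        exact_mod_cast hY2.card_pos.ne')
    hδ0.le hδ0.le
  rw [ren_unif hN hY1, ren_unif hN hY2] at hkey
  have hlow : (X.card : ℝ) * δ0 ^ (4 * N ^ 2) ≤ SS (ri G) (ri Gᶜ) p1 p2 N X Y1 Y2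
      (fun _ => (Y1.card : ℝ)⁻¹) (fun _ => (Y2.card : ℝ)⁻¹) δ0 δ0 := by
    unfold SS
    rw [← nsmul_eq_mul, ← sum_const]
    refine sum_le_sum fun z hz => ?_
    have hc1 : (0 : ℝ) < Y1.card := by exact_mod_cast hY1.card_pos
    have hc2 : (0 : ℝ) < Y2.card := by exact_mod_cast hY2.card_pos
    have hs1 : δ0 ≤ ex (ri G) p1 Y1 (fun _ => (Y1.card : ℝ)⁻¹) z := by
      rw [ex_unif z hY1, le_sub_iff_add_le, le_div_iff₀ hc1, add_comm]
      exact hd1 z hz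
    have hs2 : δ0 ≤ ex (ri Gᶜ) p2 Y2 (fun _ => (Y2.card : ℝ)⁻¹) z := by
      rw [ex_unif z hY2, le_sub_iff_add_le, le_div_iff₀ hc2, add_comm]
      exact hd2 z hz
    have hph : ∀ s : ℝ, δ0 ≤ s → δ0 ^ 2 ≤ ph δ0 s := by
      intro s hs
      unfold ph
      refine le_trans ?_ (le_max_left _ _)
      nlinarith [mul_nonneg hδ0.le (by linarith : 0 ≤ s - δ0)]
    have e1 : δ0 ^ (4 * N ^ 2) = (δ0 ^ 2) ^ (N ^ 2) * (δ0 ^ 2) ^ (N ^ 2) := by
      rw [← pow_mul, ← pow_add]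
      congr 1
      ring
    rw [e1]
    exact mul_le_mul (pow_le_pow_left₀ (by positivity) (hph _ hs1) _)
      (pow_le_pow_left₀ (by positivity) (hph _ hs2) _) (by positivity)
      (pow_nonneg (ph_nonneg _ _) _)
  have hcX : (0 : ℝ) < X.card := by exact_mod_cast hX.card_pos
  have hfin := hlow.trans hkey
  have hlog := Real.log_le_log (by positivity) hfin
  rw [Real.log_mul hcX.ne' (by positivity), Real.log_pow, ← Real.exp_add, Real.log_mul (by positivity)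
    (Real.exp_pos _).ne', Real.log_exp, Real.log_mul (by positivity) (Real.exp_pos _).ne',
    Real.log_exp, Real.log_div (Real.exp_pos _).ne' hε0.ne', Real.log_exp] at hlog
  push_cast at hlog
  linarith

theorem tbook2 : TBookThm2 := tbook_of2 sideMain combine2

end Pool.Agent.TH428.RM
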